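import Pool.Agent.NH11.CH.Stm

/-! AFF: if `N` has an operator without kernel on `V / W` then `C` acts trivially on `H / W`. -/

set_option autoImplicit false

open Module

namespace Pool.Agent.NH11.CH

namespace AFF

section

variable {K E : Type} [Group K] [NormedAddCommGroup E] [NormedSpace ℝ E]
  (g : K →* (E ≃ᵃ[ℝ] E)) (H : AffineSubspace ℝ E) (N C : Subgroup K)

theorem g_add (k : K) (q v : E) : g k (q + v) = g k q + linr g k v := by
  have h := (g k).map_vadd q v
  rw [vadd_eq_add, vadd_eq_add, add_comm v q, add_comm _ (g k q)] at h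
  exact h

theorem g_sub (k : K) (q p : E) : g k q - g k p = linr g k (q - p) := by
  have h := g_add g k p (q - p)
  rw [add_sub_cancel] at h
  rw [h, add_sub_cancel_left]

theorem dir_sub {p q : E} (hq : q ∈ H) (hp : p ∈ H) : q - p ∈ H.direction := by
  have := AffineSubspace.vsub_mem_direction hq hp
  rwa [vsub_eq_sub] at this

theorem dir_add {q v : E} (hq : q ∈ H) (hv : v ∈ H.direction) : q + v ∈ H := by
  have := AffineSubspace.vadd_mem_of_mem_direction hv hq
  rwa [vadd_eq_add, add_comm] at this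

/-- an associated affine field -/
def Fld (a : Module.End ℝ E) (f : E → E) : Prop :=
  (∀ q v, f (q + v) = f q + a v) ∧ (∀ q ∈ H, ∀ c ∈ C, f (g c q) = linr g c (f q)) ∧
    ∀ q ∈ H, f q ∈ H.direction

theorem exists_fld (hH : ∀ k, ∀ q ∈ H, g k q ∈ H) (hcom : Com g N C H) (a : Module.End ℝ E)
    (ha : a ∈ Aug (linr g) N) : ∃ f, Fld g H C a f := by
  unfold Aug at ha
  induction ha using Submodule.span_induction with
  | mem a h =>
    obtain ⟨n, hn, rfl⟩ := h
    refine ⟨fun q => g n q - q, fun q v => ?_, fun q hq c hc => ?_, fun q hq => ?_⟩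
    · simp only [g_add, LinearMap.sub_apply, Module.End.one_apply]
      abel
    · simp only
      rw [hcom n hn c hc q hq, g_sub]
    · exact dir_sub H (hH n q hq) hq
  | zero =>
    refine ⟨fun _ => 0, fun q v => ?_, fun q hq c hc => ?_, fun q hq => ?_⟩
    · simp
    · simp
    · exact H.direction.zero_mem
  | add a b _ _ ha hb =>
    obtain ⟨f, f1, f2, f3⟩ := ha
    obtain ⟨f', f1', f2', f3'⟩ := hb
    refine ⟨fun q => f q + f' q, fun q v => ?_, fun q hq c hc => ?_, fun q hq => ?_⟩
    · simp only [f1, f1', LinearMap.add_apply]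
      abel
    · simp only [f2 q hq c hc, f2' q hq c hc, map_add]
    · exact H.direction.add_mem (f3 q hq) (f3' q hq)
  | smul r a _ ha =>
    obtain ⟨f, f1, f2, f3⟩ := ha
    refine ⟨fun q => r • f q, fun q v => ?_, fun q hq c hc => ?_, fun q hq => ?_⟩
    · simp only [f1, LinearMap.smul_apply, smul_add]
    · simp only [f2 q hq c hc, map_smul]
    · exact H.direction.smul_mem r (f3 q hq)

theorem aug_inv (W : Submodule ℝ E) (hW : Inv (linr g) W) (a : Module.End ℝ E)
    (ha : a ∈ Aug (linr g) N) : ∀ v ∈ W, a v ∈ W := by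
  unfold Aug at ha
  induction ha using Submodule.span_induction with
  | mem a h =>
    obtain ⟨n, hn, rfl⟩ := h
    intro v hv
    rw [LinearMap.sub_apply, Module.End.one_apply]
    exact W.sub_mem (hW n v hv) hv
  | zero =>
    intro v _
    rw [LinearMap.zero_apply]
    exact W.zero_mem
  | add a b _ _ ha hb =>
    intro v hv
    rw [LinearMap.add_apply]
    exact W.add_mem (ha v hv) (hb v hv)
  | smul r a _ ha =>
    intro v hv
    rw [LinearMap.smul_apply]
    exact W.smul_mem r (ha v hv)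

end

section

variable {E : Type} [AddCommGroup E] [Module ℝ E] [FiniteDimensional ℝ E]

theorem surj (a : Module.End ℝ E) (W V : Submodule ℝ E) (haV : ∀ v ∈ V, a v ∈ V)
    (haW : ∀ v ∈ W, a v ∈ W) (h : P a W V) (y : E) (hy : y ∈ V) : ∃ v ∈ V, y - a v ∈ W := by
  set φ : V →ₗ[ℝ] (E ⧸ W) := (W.mkQ ∘ₗ a) ∘ₗ V.subtype with hφ
  set ψ : V →ₗ[ℝ] (E ⧸ W) := W.mkQ ∘ₗ V.subtype with hψ
  have hker : LinearMap.ker φ = LinearMap.ker ψ := by
    ext v
    rw [LinearMap.mem_ker, LinearMap.mem_ker]
    have e1 : φ v = W.mkQ (a v) := rfl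
    have e2 : ψ v = W.mkQ (v : E) := rfl
    rw [e1, e2, Submodule.mkQ_apply, Submodule.mkQ_apply, Submodule.Quotient.mk_eq_zero,
      Submodule.Quotient.mk_eq_zero]
    exact ⟨fun h' => h v v.2 h', fun h' => haW v h'⟩
  have hle : LinearMap.range φ ≤ LinearMap.range ψ := by
    rintro z ⟨v, rfl⟩
    exact ⟨⟨a v, haV v v.2⟩, rfl⟩
  have h1 := LinearMap.finrank_range_add_finrank_ker φ
  have h2 := LinearMap.finrank_range_add_finrank_ker ψ
  rw [hker] at h1
  have heq : LinearMap.range φ = LinearMap.range ψ :=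
    Submodule.eq_of_le_of_finrank_eq hle (by omega)
  have h3 : ψ ⟨y, hy⟩ ∈ LinearMap.range φ := by
    rw [heq]
    exact ⟨_, rfl⟩
  obtain ⟨v, hv⟩ := h3
  refine ⟨v, v.2, ?_⟩
  have e1 : φ v = W.mkQ (a v) := rfl
  have e2 : ψ ⟨y, hy⟩ = W.mkQ y := rfl
  rw [e1, e2, Submodule.mkQ_apply, Submodule.mkQ_apply] at hv
  exact (Submodule.Quotient.eq W).1 hv.symm

end

end AFF

open AFF in
theorem t_AFF : S_AFF := by
  intro K E _ _ _ _ g H N C W a hC hne hH hstar hcom hW hWV ha hP
  obtain ⟨f, f1, f2, f3⟩ := exists_fld g H N C hH hcom a ha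
  obtain ⟨q0, hq0⟩ := hne
  have haW := aug_inv g N W hW a ha
  have haV : ∀ v ∈ H.direction, a v ∈ H.direction := by
    intro v hv
    have h1 : a v = f (q0 + v) - f q0 := by rw [f1, add_sub_cancel_left]
    rw [h1]
    exact H.direction.sub_mem (f3 _ (dir_add H hq0 hv)) (f3 _ hq0)
  obtain ⟨v, hv, hv'⟩ := surj a W H.direction haV haW hP (f q0) (f3 q0 hq0)
  set q1 : E := q0 + -v with hq1
  have hq1H : q1 ∈ H := dir_add H hq0 (H.direction.neg_mem hv)
  have hfq1 : f q1 ∈ W := by
    rw [hq1, f1, map_neg, ← sub_eq_add_neg]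
    exact hv'
  have h1 : ∀ c ∈ C, g c q1 - q1 ∈ W := by
    intro c hc
    refine hP _ (dir_sub H (hH c q1 hq1H) hq1H) ?_
    have e1 : f (g c q1) = f q1 + a (g c q1 - q1) := by
      rw [← f1, add_sub_cancel]
    have e2 : a (g c q1 - q1) = f (g c q1) - f q1 := by rw [e1, add_sub_cancel_left]
    rw [e2, f2 q1 hq1H c hc]
    exact W.sub_mem (hW c _ hfq1) hfq1
  set S : Set E := {q | q ∈ H ∧ ∀ c ∈ C, g c q - q ∈ W} with hS
  have hSH : S = H := by
    refine hstar S q1 ⟨hq1H, h1⟩ (fun q hq => hq.1) ?_ ?_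
    · intro y hy s t hs ht hst
      have e0 : s • q1 + t • y = q1 + t • (y - q1) := by
        have : s = 1 - t := by linarith
        rw [this, sub_smul, one_smul, smul_sub]
        abel
      rw [e0]
      refine ⟨dir_add H hq1H (H.direction.smul_mem t (dir_sub H hy.1 hq1H)), fun c hc => ?_⟩
      rw [g_add, map_smul, ← g_sub]
      have e3 : g c q1 + t • (g c y - g c q1) - (q1 + t • (y - q1)) =
          (g c q1 - q1) + t • ((g c y - y) - (g c q1 - q1)) := by
        simp only [smul_sub]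
        abel
      rw [e3]
      exact W.add_mem (h1 c hc) (W.smul_mem t (W.sub_mem (hy.2 c hc) (h1 c hc)))
    · intro k q hq
      refine ⟨hH k q hq.1, fun c hc => ?_⟩
      have hc' : k⁻¹ * c * k ∈ C := by
        have := hC.conj_mem c hc k⁻¹
        rwa [inv_inv] at this
      have e1 : g c (g k q) = g k (g (k⁻¹ * c * k) q) := by
        have e2 : g c * g k = g k * g (k⁻¹ * c * k) := by
          rw [← map_mul, ← map_mul]
          congr 1
          group
        exact congrArg (fun e : E ≃ᵃ[ℝ] E => e q) e2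
      rw [e1, g_sub]
      exact hW k _ (hq.2 _ hc')
  intro c hc q hq
  have hq' : q ∈ S := by
    rw [hSH]
    exact hq
  exact hq'.2 c hc

end Pool.Agent.NH11.CH
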