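import Pool.Agent.NH11.CH.Stm2

/-!
# Commuting normal subgroups of linear groups: dimension four
-/

set_option autoImplicit false

open Module

namespace Pool.Agent.NH11.CH

namespace DIM

variable {K E : Type} [Group K] [AddCommGroup E] [Module ℝ E] {ρ : K →* Module.End ℝ E}
  {N C : Subgroup K} {V : Submodule ℝ E}

/-- no factors of dimension one -/
def NoOne (ρ : K →* Module.End ℝ E) (V : Submodule ℝ E) : Prop :=
  ∀ W W' : Submodule ℝ E, W ≤ W' → W' ≤ V → Inv ρ W → Inv ρ W' → finrank ℝ W' ≠ finrank ℝ W + 1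

lemma inv_bot : Inv ρ (⊥ : Submodule ℝ E) := by
  intro k v hv
  rw [Submodule.mem_bot] at hv ⊢
  rw [hv, map_zero]

lemma inv_inf {W W' : Submodule ℝ E} (h : Inv ρ W) (h' : Inv ρ W') : Inv ρ (W ⊓ W') :=
  fun k v hv => ⟨h k v hv.1, h' k v hv.2⟩

variable [FiniteDimensional ℝ E]

lemma dimc (h4 : finrank ℝ V = 4) (hVi : Inv ρ V) (h1 : NoOne ρ V) {W : Submodule ℝ E}
    (hW : Inv ρ W) (hle : W ≤ V) : finrank ℝ W = 0 ∨ finrank ℝ W = 2 ∨ finrank ℝ W = 4 := by
  have a1 := Submodule.finrank_mono hle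
  have a2 := h1 ⊥ W bot_le hle inv_bot hW
  have a3 := h1 W V hle le_rfl hW hVi
  rw [finrank_bot] at a2
  omega

lemma notriv (h1 : NoOne ρ V) {P Q : Submodule ℝ E} (hP : Inv ρ P) (hPQ : P < Q) (hQV : Q ≤ V)
    (h : ∀ k, ∀ v ∈ Q, ρ k v - v ∈ P) : False := by
  obtain ⟨v, hvQ, hvP⟩ := SetLike.exists_of_lt hPQ
  have hv0 : v ≠ 0 := fun h0 => hvP (h0 ▸ P.zero_mem)
  refine h1 P (P ⊔ Submodule.span ℝ {v}) le_sup_left ((sup_le hPQ.le ?_).trans hQV) hP ?_ ?_
  · rw [Submodule.span_le, Set.singleton_subset_iff]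
    exact hvQ
  · intro k w hw
    rw [Submodule.mem_sup] at hw ⊢
    obtain ⟨p, hp, s, hs, rfl⟩ := hw
    obtain ⟨t, rfl⟩ := Submodule.mem_span_singleton.1 hs
    refine ⟨ρ k p + t • (ρ k v - v), add_mem (hP k p hp) (P.smul_mem _ (h k v hvQ)), t • v, hs, ?_⟩
    rw [map_add, map_smul, smul_sub]
    abel
  · have h2 := Submodule.finrank_sup_add_finrank_inf_eq P (Submodule.span ℝ {v})
    have h3 : P ⊓ Submodule.span ℝ {v} = ⊥ := by
      rw [Submodule.eq_bot_iff]
      rintro x ⟨hx1, hx2⟩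
      obtain ⟨t, rfl⟩ := Submodule.mem_span_singleton.1 hx2
      by_cases ht : t = 0
      · rw [ht, zero_smul]
      · exfalso
        apply hvP
        have := P.smul_mem t⁻¹ hx1
        rwa [smul_smul, inv_mul_cancel₀ ht, one_smul] at this
    rw [h3, finrank_bot, finrank_span_singleton hv0] at h2
    omega

/-- if both `N` and `C` act trivially on `Q / P` then this is a trivial factor -/
lemma both (h1 : NoOne ρ V) (hk : ∀ k, ∃ n ∈ N, ∃ c ∈ C, ∀ v ∈ V, ρ k v = ρ n (ρ c v))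
    {P Q : Submodule ℝ E} (hP : Inv ρ P) (hQ : Inv ρ Q) (hPQ : P < Q) (hQV : Q ≤ V)
    (hN : Triv ρ N P Q) (hC : Triv ρ C P Q) : False := by
  refine notriv h1 hP hPQ hQV fun k v hv => ?_
  obtain ⟨n, hn, c, hc, h⟩ := hk k
  rw [h v (hQV hv)]
  have h2 := hN n hn (ρ c v) (hQ c v hv)
  have h3 := hC c hc v hv
  have h4 : ρ n (ρ c v) - v = (ρ n (ρ c v) - ρ c v) + (ρ c v - v) := by abel
  rw [h4]
  exact add_mem h2 h3

/-- the next factor above `P` -/
lemma next (h4 : finrank ℝ V = 4) (hVi : Inv ρ V) (h1 : NoOne ρ V) {P : Submodule ℝ E}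
    (hP2 : finrank ℝ P = 2) (hR : Resid ρ C V V) (hPV : P ≤ V) (hP : Inv ρ P) : Triv ρ C P V := by
  have hlt : P < V := lt_of_le_of_ne hPV (fun h => by rw [h] at hP2; omega)
  obtain ⟨W', W'', i1, i2, l1, l2, l3, t⟩ := hR.below P hP hlt
  have d1 := dimc h4 hVi h1 i1 (l2.le.trans l3)
  have d2 := dimc h4 hVi h1 i2 l3
  have d3 := Submodule.finrank_mono l1
  have d4 := Submodule.finrank_lt_finrank_of_lt l2
  have e1 : P = W' := Submodule.eq_of_le_of_finrank_eq l1 (by omega)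
  have e2 : W'' = V := Submodule.eq_of_le_of_finrank_eq l3 (by omega)
  rw [e1, ← e2]
  exact t

lemma caseA (h4 : finrank ℝ V = 4) (hVi : Inv ρ V) (h1 : NoOne ρ V)
    (hk : ∀ k, ∃ n ∈ N, ∃ c ∈ C, ∀ v ∈ V, ρ k v = ρ n (ρ c v))
    (hRN : Resid ρ N V V) (hRC : Resid ρ C V V) : False := by
  have hbV : (⊥ : Submodule ℝ E) < V := by
    rw [bot_lt_iff_ne_bot]
    intro h
    rw [h, finrank_bot] at h4
    omega
  obtain ⟨P, ⟨hP, hPV⟩, hmax⟩ := (wellFounded_gt (α := Submodule ℝ E)).has_min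
    {W : Submodule ℝ E | Inv ρ W ∧ W < V} ⟨⊥, inv_bot, hbV⟩
  have key : ∀ M : Subgroup K, Resid ρ M V V → Triv ρ M P V := by
    intro M hR
    obtain ⟨W', W'', i1, i2, l1, l2, l3, t⟩ := hR.below P hP hPV
    have e1 : P = W' := by
      by_contra hne
      exact hmax W' ⟨i1, l2.trans_le l3⟩ (lt_of_le_of_ne l1 hne)
    have e2 : W'' = V := by
      by_contra hne
      exact hmax W'' ⟨i2, lt_of_le_of_ne l3 hne⟩ (lt_of_le_of_lt l1 l2)
    rw [e1, ← e2]
    exact t
  exact both h1 hk hP hVi hPV le_rfl (key N hRN) (key C hRC)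

lemma caseB (hCHN : S_CHN) (h4 : finrank ℝ V = 4) (hVi : Inv ρ V) (h1 : NoOne ρ V)
    (hN : N.Normal) (hC : C.Normal)
    (hk : ∀ k, ∃ n ∈ N, ∃ c ∈ C, ∀ v ∈ V, ρ k v = ρ n (ρ c v))
    (hcom : ∀ n ∈ N, ∀ c ∈ C, ∀ v ∈ V, ρ n (ρ c v) = ρ c (ρ n v)) {W0 : Submodule ℝ E}
    (hRN : Resid ρ N V W0) (hRC : Resid ρ C V V) (h2 : finrank ℝ W0 = 2) : False := by
  have hW0V : W0 < V := lt_of_le_of_ne hRN.le (fun h => by rw [h] at h2; omega)
  have small : ∀ W : Submodule ℝ E, Inv ρ W → W < W0 → W = ⊥ := by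
    intro W hW hlt
    have d1 := dimc h4 hVi h1 hW (hlt.le.trans hRN.le)
    have d2 := Submodule.finrank_lt_finrank_of_lt hlt
    exact Submodule.finrank_eq_zero.1 (by omega)
  have hb0 : (⊥ : Submodule ℝ E) < W0 := by
    rw [bot_lt_iff_ne_bot]
    intro h
    rw [h, finrank_bot] at h2
    omega
  -- (B1)
  have B1 : Triv ρ N ⊥ W0 := by
    obtain ⟨W', W'', i1, i2, -, l2, l3, t⟩ := hRN.below ⊥ inv_bot hb0
    have d1 := dimc h4 hVi h1 i1 (l2.le.trans l3)
    have d2 := dimc h4 hVi h1 i2 l3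
    have d4 := Submodule.finrank_lt_finrank_of_lt l2
    have hnot : ¬ W0 ≤ W' := fun h => hRN.above W' W'' i1 i2 h l2 l3 t
    have hinf : W' ⊓ W0 = ⊥ := by
      refine small _ (inv_inf i1 hRN.inv) (lt_of_le_of_ne inf_le_right fun h => hnot ?_)
      rw [← h]
      exact inf_le_left
    by_cases hW' : W' = ⊥
    · by_cases hP'' : W0 ≤ W''
      · rw [hW'] at t
        exact fun n hn v hv => t n hn v (hP'' hv)
      · exfalso
        have hinf2 : W'' ⊓ W0 = ⊥ := by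
          refine small _ (inv_inf i2 hRN.inv) (lt_of_le_of_ne inf_le_right fun h => hP'' ?_)
          rw [← h]
          exact inf_le_left
        have h5 := Submodule.finrank_sup_add_finrank_inf_eq W'' W0
        rw [hinf2, finrank_bot] at h5
        have h6 := Submodule.finrank_mono (sup_le l3 hRN.le)
        have h7 : W'' ⊔ W0 = V := Submodule.eq_of_le_of_finrank_eq (sup_le l3 hRN.le) (by omega)
        refine hRN.above W0 V hRN.inv hVi le_rfl hW0V le_rfl fun n hn v hv => ?_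
        rw [← h7, Submodule.mem_sup] at hv
        obtain ⟨w, hw, p, hp, rfl⟩ := hv
        have h8 := t n hn w hw
        rw [hW', Submodule.mem_bot] at h8
        have h9 : ρ n (w + p) - (w + p) = (ρ n w - w) + (ρ n p - p) := by
          rw [map_add]; abel
        rw [h9, h8, zero_add]
        exact sub_mem (hRN.inv n p hp) hp
    · have h5 : finrank ℝ W' ≠ 0 := fun h => hW' (Submodule.finrank_eq_zero.1 h)
      have h6 : W'' = V := Submodule.eq_of_le_of_finrank_eq l3 (by omega)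
      intro n hn v hv
      rw [← hinf]
      exact ⟨t n hn v (h6 ▸ hRN.le hv), sub_mem (hRN.inv n v hv) hv⟩
  -- (B2)
  have B2 : Triv ρ C W0 V := next h4 hVi h1 h2 hRC hRN.le hRN.inv
  -- (B3)
  have B3 : ¬ Triv ρ C ⊥ W0 := fun h => both h1 hk inv_bot hRN.inv hb0 hRN.le B1 h
  -- the invariants of `C`
  obtain ⟨VC, hVC⟩ : ∃ VC : Submodule ℝ E, ∀ v, v ∈ VC ↔ v ∈ V ∧ ∀ c ∈ C, ρ c v = v :=
    ⟨{ carrier := {v | v ∈ V ∧ ∀ c ∈ C, ρ c v = v}
       zero_mem' := ⟨V.zero_mem, fun c _ => map_zero _⟩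
       add_mem' := fun {a b} ha hb => ⟨V.add_mem ha.1 hb.1, fun c hc => by
         rw [map_add, ha.2 c hc, hb.2 c hc]⟩
       smul_mem' := fun t a ha => ⟨V.smul_mem t ha.1, fun c hc => by
         rw [map_smul, ha.2 c hc]⟩ }, fun v => Iff.rfl⟩
  have hVCi : Inv ρ VC := by
    intro k v hv
    rw [hVC] at hv ⊢
    refine ⟨hVi k v hv.1, fun c hc => ?_⟩
    have h5 : k⁻¹ * c * k ∈ C := by
      have := hC.conj_mem c hc k⁻¹
      rwa [inv_inv] at this
    have h6 := hv.2 _ h5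
    have h7 : ρ c (ρ k v) = ρ k (ρ (k⁻¹ * c * k) v) := by
      rw [← Module.End.mul_apply, ← Module.End.mul_apply, ← map_mul, ← map_mul]
      congr 2
      group
    rw [h7, h6]
  have hVCV : VC ≤ V := fun v hv => ((hVC v).1 hv).1
  have hinfC : VC ⊓ W0 = ⊥ := by
    refine small _ (inv_inf hVCi hRN.inv) (lt_of_le_of_ne inf_le_right fun h => B3 ?_)
    intro c hc v hv
    rw [← h] at hv
    rw [Submodule.mem_bot, ((hVC v).1 hv.1).2 c hc, sub_self]
  -- (B5)
  have B5 : ∀ n ∈ N, ∀ v ∈ V, ρ n v - v ∈ VC := by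
    intro n hn v hv
    rw [hVC]
    refine ⟨sub_mem (hVi n v hv) hv, fun c hc => ?_⟩
    have h5 := B1 n hn _ (B2 c hc v hv)
    rw [Submodule.mem_bot, map_sub, hcom n hn c hc v hv] at h5
    rw [map_sub]
    have h6 : ρ c (ρ n v) - ρ c v - (ρ n v - v) = ρ c (ρ n v) - ρ n v - (ρ c v - v) := by abel
    rw [← sub_eq_zero, h6, h5]
  have hAug : ∀ a ∈ Aug ρ N, ∀ v ∈ V, a v ∈ VC := by
    intro a ha
    unfold Aug at ha
    induction ha using Submodule.span_induction with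
    | mem x hx =>
      obtain ⟨n, hn, rfl⟩ := hx
      exact fun v hv => B5 n hn v hv
    | zero => exact fun v _ => VC.zero_mem
    | add x y _ _ hx hy => exact fun v hv => VC.add_mem (hx v hv) (hy v hv)
    | smul t x _ hx => exact fun v hv => VC.smul_mem t (hx v hv)
  -- (B6)
  have B6 : finrank ℝ VC = 2 := by
    rcases hCHN K E ρ N W0 V hN hRN.inv hVi hRN.le with ⟨a, ha, hPa⟩ |
      ⟨W', W'', i1, i2, l1, l2, l3, t⟩
    · have h5 := hAug a ha
      have h6 := LinearMap.finrank_range_add_finrank_ker (a.domRestrict V)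
      have h7 : finrank ℝ (LinearMap.range (a.domRestrict V)) ≤ finrank ℝ VC := by
        refine Submodule.finrank_mono ?_
        rintro _ ⟨v, rfl⟩
        exact h5 v v.2
      have h8 : finrank ℝ (LinearMap.ker (a.domRestrict V)) ≤ finrank ℝ W0 := by
        rw [← Submodule.finrank_map_subtype_eq V]
        refine Submodule.finrank_mono ?_
        rintro _ ⟨v, hv, rfl⟩
        refine hPa v v.2 ?_
        have h9 : a v = 0 := hv
        show a v ∈ W0
        rw [h9]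
        exact W0.zero_mem
      have h9 := Submodule.finrank_sup_add_finrank_inf_eq VC W0
      rw [hinfC, finrank_bot] at h9
      have h10 := Submodule.finrank_mono (sup_le hVCV hRN.le)
      have h11 : finrank ℝ V = 4 := h4
      omega
    · exact absurd t (hRN.above W' W'' i1 i2 l1 l2 l3)
  -- (B7)
  have B7 : Triv ρ C VC V := next h4 hVi h1 B6 hRC hVCV hVCi
  apply B3
  intro c hc v hv
  rw [← hinfC]
  exact ⟨B7 c hc v (hRN.le hv), sub_mem (hRN.inv c v hv) hv⟩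

end DIM

open DIM in
theorem t_DIM : S_CHN → S_DIM := by
  intro hCHN K E _ _ _ _ ρ N C V WN WC hN hC h4 hVi h1 hk hcom hRN hRC hsup
  have hk' : ∀ k, ∃ c ∈ C, ∃ n ∈ N, ∀ v ∈ V, ρ k v = ρ c (ρ n v) := by
    intro k
    obtain ⟨n, hn, c, hc, h⟩ := hk k
    exact ⟨c, hc, n, hn, fun v hv => by rw [h v hv, hcom n hn c hc v hv]⟩
  have hcom' : ∀ c ∈ C, ∀ n ∈ N, ∀ v ∈ V, ρ c (ρ n v) = ρ n (ρ c v) :=
    fun c hc n hn v hv => (hcom n hn c hc v hv).symm
  have top : ∀ W : Submodule ℝ E, W ≤ V → finrank ℝ W = 4 → W = V := fun W hW h =>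
    Submodule.eq_of_le_of_finrank_eq hW (by omega)
  rcases dimc h4 hVi h1 hRN.inv hRN.le with d1 | d1 | d1
  · exact Or.inl (Submodule.finrank_eq_zero.1 d1)
  · rcases dimc h4 hVi h1 hRC.inv hRC.le with d2 | d2 | d2
    · exact Or.inr (Or.inl (Submodule.finrank_eq_zero.1 d2))
    · refine Or.inr (Or.inr ⟨d1, d2, ?_⟩)
      have h5 := Submodule.finrank_sup_add_finrank_inf_eq WN WC
      rw [hsup] at h5
      exact Submodule.finrank_eq_zero.1 (by omega)
    · exfalso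
      rw [top WC hRC.le d2] at hRC
      exact caseB hCHN h4 hVi h1 hN hC hk hcom hRN hRC d1
  · rcases dimc h4 hVi h1 hRC.inv hRC.le with d2 | d2 | d2
    · exact Or.inr (Or.inl (Submodule.finrank_eq_zero.1 d2))
    · exfalso
      rw [top WN hRN.le d1] at hRN
      exact caseB hCHN h4 hVi h1 hC hN hk' hcom' hRC hRN d2
    · exfalso
      rw [top WN hRN.le d1] at hRN
      rw [top WC hRC.le d2] at hRC
      exact caseA h4 hVi h1 hk hRN hRC

end Pool.Agent.NH11.CH
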