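import Pool.Agent.NH11.CH.Stm

/-!
# Two commuting normal subgroups of an affine group
-/

set_option autoImplicit false

open Module

namespace Pool.Agent.NH11.CH

namespace SPL

section linear

variable {K E : Type} [Group K] [AddCommGroup E] [Module ℝ E]

theorem aug_inv {ρ : K →* Module.End ℝ E} {N : Subgroup K} {U : Submodule ℝ E} (hU : Inv ρ U)
    {a : Module.End ℝ E} (ha : a ∈ Aug ρ N) : ∀ v ∈ U, a v ∈ U := by
  unfold Aug at ha
  induction ha using Submodule.span_induction with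
  | mem x hx =>
    obtain ⟨n, -, rfl⟩ := hx
    intro v hv
    exact U.sub_mem (hU n v hv) hv
  | zero => exact fun v _ => U.zero_mem
  | add x y _ _ hx hy => exact fun v hv => U.add_mem (hx v hv) (hy v hv)
  | smul c x _ hx => exact fun v hv => U.smul_mem c (hx v hv)

theorem aug_triv {ρ : K →* Module.End ℝ E} {N : Subgroup K} {W U : Submodule ℝ E}
    (h : Triv ρ N W U) {a : Module.End ℝ E} (ha : a ∈ Aug ρ N) : ∀ v ∈ U, a v ∈ W := by
  unfold Aug at ha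
  induction ha using Submodule.span_induction with
  | mem x hx =>
    obtain ⟨n, hn, rfl⟩ := hx
    intro v hv
    exact h n hn v hv
  | zero => exact fun v _ => W.zero_mem
  | add x y _ _ hx hy => exact fun v hv => W.add_mem (hx v hv) (hy v hv)
  | smul c x _ hx => exact fun v hv => W.smul_mem c (hx v hv)

theorem surj [FiniteDimensional ℝ E] {a : Module.End ℝ E} {W U : Submodule ℝ E} (hWU : W ≤ U)
    (hU : ∀ v ∈ U, a v ∈ U) (hW : ∀ v ∈ W, a v ∈ W) (hP : P a W U) :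
    ∀ u ∈ U, ∃ x ∈ U, a x - u ∈ W := by
  intro u hu
  obtain ⟨W₀, hW₀⟩ : ∃ W₀ : Submodule ℝ U, W₀ = W.comap U.subtype := ⟨_, rfl⟩
  have hmem : ∀ x : U, x ∈ W₀ ↔ (x : E) ∈ W := fun x => by rw [hW₀]; exact Submodule.mem_comap
  have hle : W₀ ≤ W₀.comap (LinearMap.restrict a hU) := by
    intro x hx
    rw [Submodule.mem_comap, hmem]
    exact hW _ ((hmem x).1 hx)
  obtain ⟨f, hf⟩ : ∃ f : (U ⧸ W₀) →ₗ[ℝ] (U ⧸ W₀), f = W₀.mapQ W₀ (LinearMap.restrict a hU) hle :=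
    ⟨_, rfl⟩
  have hfm : ∀ x : U, f (W₀.mkQ x) = W₀.mkQ (LinearMap.restrict a hU x) := by
    intro x
    rw [hf]
    rfl
  have hinj : Function.Injective f := by
    rw [← LinearMap.ker_eq_bot, LinearMap.ker_eq_bot']
    intro q hq
    obtain ⟨x, rfl⟩ := W₀.mkQ_surjective q
    rw [hfm, Submodule.mkQ_apply, Submodule.Quotient.mk_eq_zero, hmem] at hq
    rw [Submodule.mkQ_apply, Submodule.Quotient.mk_eq_zero, hmem]
    exact hP x x.2 hq
  obtain ⟨q, hq⟩ := (LinearMap.injective_iff_surjective.1 hinj) (W₀.mkQ ⟨u, hu⟩)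
  obtain ⟨x, rfl⟩ := W₀.mkQ_surjective q
  rw [hfm, Submodule.mkQ_apply, Submodule.mkQ_apply, Submodule.Quotient.eq, hmem] at hq
  exact ⟨x, x.2, hq⟩

theorem no_triv [FiniteDimensional ℝ E] {ρ : K →* Module.End ℝ E} {N : Subgroup K}
    {W V W' W'' : Submodule ℝ E} (hW : Inv ρ W) {a : Module.End ℝ E} (ha : a ∈ Aug ρ N)
    (hP : P a W V) (h' : Inv ρ W') (h1 : W ≤ W') (h2 : W'' ≤ V)
    (h3 : W' < W'') : ¬ Triv ρ N W' W'' := by
  intro h
  refine absurd (show W'' ≤ W' from fun v hv => ?_) (not_le_of_gt h3)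
  have hP' : P a W W' := fun x hx => hP x (h2 (h3.le hx))
  obtain ⟨x, hx, hx2⟩ := surj h1 (aug_inv h' ha) (aug_inv hW ha) hP' (a v) (aug_triv h ha v hv)
  rw [← map_sub] at hx2
  have h4 : x - v ∈ W := hP (x - v) (V.sub_mem (h2 (h3.le hx)) (h2 hv)) hx2
  have h5 : v = x - (x - v) := by abel
  rw [h5]
  exact W'.sub_mem hx (h1 h4)

/-- the smallest subspace -/
theorem exists_min [FiniteDimensional ℝ E] (hC : S_CHN) {ρ : K →* Module.End ℝ E} {N : Subgroup K}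
    (hN : N.Normal) {V : Submodule ℝ E} (hV : Inv ρ V) :
    ∃ W : Submodule ℝ E, Inv ρ W ∧ W ≤ V ∧ (∃ a ∈ Aug ρ N, P a W V) ∧
      ∀ W₁ : Submodule ℝ E, Inv ρ W₁ → W₁ < W → ∃ W' W'' : Submodule ℝ E, Inv ρ W' ∧
        Inv ρ W'' ∧ W₁ ≤ W' ∧ W' < W'' ∧ W'' ≤ V ∧ Triv ρ N W' W'' := by
  obtain ⟨W, ⟨h1, h2, h3⟩, h4⟩ := WellFounded.has_min (wellFounded_lt (α := Submodule ℝ E))
    {W : Submodule ℝ E | Inv ρ W ∧ W ≤ V ∧ ∃ a ∈ Aug ρ N, P a W V}
    ⟨V, hV, le_rfl, 0, Submodule.zero_mem _, fun v hv _ => hv⟩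
  refine ⟨W, h1, h2, h3, fun W₁ h5 h6 => ?_⟩
  rcases hC K E ρ N W₁ V hN h5 hV (h6.le.trans h2) with h7 | h7
  · exact absurd h6 (h4 W₁ ⟨h5, h6.le.trans h2, h7⟩)
  · exact h7

end linear

section affine

variable {K E : Type} [Group K] [NormedAddCommGroup E] [NormedSpace ℝ E]

theorem map_add_pt (g : K →* (E ≃ᵃ[ℝ] E)) (k : K) (v q : E) :
    g k (v + q) = linr g k v + g k q :=
  (g k).map_vadd q v

theorem inv_dir {g : K →* (E ≃ᵃ[ℝ] E)} {H : AffineSubspace ℝ E} (hne : (H : Set E).Nonempty)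
    (hg : ∀ k, ∀ q ∈ H, g k q ∈ H) : Inv (linr g) H.direction := by
  obtain ⟨q, hq⟩ := hne
  intro k v hv
  have h1 : v + q ∈ H := AffineSubspace.vadd_mem_of_mem_direction hv hq
  have h2 := AffineSubspace.vsub_mem_direction (hg k _ h1) (hg k q hq)
  rw [map_add_pt] at h2
  have h3 : linr g k v + g k q -ᵥ g k q = linr g k v := add_sub_cancel_right _ _
  rwa [h3] at h2

theorem triv_of {g : K →* (E ≃ᵃ[ℝ] E)} {N : Subgroup K} {H : AffineSubspace ℝ E}
    {W : Submodule ℝ E} (hne : (H : Set E).Nonempty) (h : TrivH g N H W) :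
    Triv (linr g) N W H.direction := by
  obtain ⟨q, hq⟩ := hne
  intro n hn v hv
  have h1 : v + q ∈ H := AffineSubspace.vadd_mem_of_mem_direction hv hq
  have h2 := W.sub_mem (h n hn _ h1) (h n hn q hq)
  rw [map_add_pt] at h2
  have h3 : linr g n v + g n q - (v + q) - (g n q - q) = linr g n v - v := by abel
  rwa [h3] at h2

end affine

end SPL

open SPL

/-- SPL -/
theorem t_SPL : S_CHN → S_AFF → S_SPL := by
  intro hC hA K E _ _ _ _ g H N C hN hCn hne hg hs hcom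
  have hV := inv_dir hne hg
  obtain ⟨WN, a1, a2, ⟨a, ha, hPa⟩, a3⟩ := exists_min hC hN hV
  obtain ⟨WC, b1, b2, ⟨b, hb, hPb⟩, b3⟩ := exists_min hC hCn hV
  have hcom' : Com g C N H := fun c hc n hn q hq => (hcom n hn c hc q hq).symm
  have t1 : TrivH g C H WN := hA K E g H N C WN a hCn hne hg hs hcom a1 a2 ha hPa
  have t2 : TrivH g N H WC := hA K E g H C N WC b hN hne hg hs hcom' b1 b2 hb hPb
  refine ⟨WN, WC, a1, b1, le_antisymm (sup_le a2 b2) fun u hu => ?_, t1, t2,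
    fun W' W'' h1 _ h3 h4 h5 => no_triv a1 ha hPa h1 h3 h4 h5,
    fun W' W'' h1 _ h3 h4 h5 => no_triv b1 hb hPb h1 h3 h4 h5, a3, b3⟩
  obtain ⟨x, hx, hx2⟩ := surj a2 (aug_inv hV ha) (aug_inv a1 ha) hPa u hu
  have h1 : a x ∈ WC := aug_triv (triv_of hne t2) ha x hx
  have h2 : u = -(a x - u) + a x := by abel
  rw [h2]
  exact Submodule.add_mem_sup (WN.neg_mem hx2) h1

end Pool.Agent.NH11.CH
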