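import Pool.Agent.NH11.CH.Stm4
import Pool.Agent.NH11.CH.SPL
import Pool.Agent.NH11.CH.DIM

/-!
# A nontrivial irreducible factor of a nilpotent normal subgroup splits off below a trivial factor
-/

set_option autoImplicit false

open Module

namespace Pool.Agent.NH11.CH

namespace CEN

variable {K E : Type} [Group K] [AddCommGroup E] [Module ℝ E]

/-- the vectors of `A` which are fixed by `N` modulo `U` -/
def FU (ρ : K →* Module.End ℝ E) (N : Subgroup K) (U A : Submodule ℝ E) : Submodule ℝ E where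
  carrier := {v | v ∈ A ∧ ∀ n ∈ N, ρ n v - v ∈ U}
  zero_mem' := ⟨A.zero_mem, fun n _ => by rw [map_zero, sub_zero]; exact U.zero_mem⟩
  add_mem' := fun {x y} hx hy => ⟨A.add_mem hx.1 hy.1, fun n hn => by
    have h1 : ρ n (x + y) - (x + y) = (ρ n x - x) + (ρ n y - y) := by
      rw [map_add]; abel
    rw [h1]
    exact U.add_mem (hx.2 n hn) (hy.2 n hn)⟩
  smul_mem' := fun t x hx => ⟨A.smul_mem t hx.1, fun n hn => by
    rw [map_smul, ← smul_sub]
    exact U.smul_mem t (hx.2 n hn)⟩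

lemma mem_FU {ρ : K →* Module.End ℝ E} {N : Subgroup K} {U A : Submodule ℝ E} {v : E} :
    v ∈ FU ρ N U A ↔ v ∈ A ∧ ∀ n ∈ N, ρ n v - v ∈ U := Iff.rfl

lemma inv_FU {ρ : K →* Module.End ℝ E} {N : Subgroup K} (hN : N.Normal) {U A : Submodule ℝ E}
    (hU : Inv ρ U) (hA : Inv ρ A) : Inv ρ (FU ρ N U A) := by
  intro k v hv
  rw [mem_FU] at hv ⊢
  refine ⟨hA k v hv.1, fun n hn => ?_⟩
  have h5 : k⁻¹ * n * k ∈ N := by
    have := hN.conj_mem n hn k⁻¹
    rwa [inv_inv] at this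
  have h7 : ρ n (ρ k v) = ρ k (ρ (k⁻¹ * n * k) v) := by
    rw [← Module.End.mul_apply, ← Module.End.mul_apply, ← map_mul, ← map_mul]
    congr 2
    group
  rw [h7, ← map_sub]
  exact hU k _ (hv.2 _ h5)

/-- commuting modulo `U` passes to the span -/
lemma aug_comm_mod {ρ : K →* Module.End ℝ E} {N Z : Subgroup K} {U M : Submodule ℝ E}
    (h : ∀ z ∈ Z, ∀ n ∈ N, ∀ v ∈ M, ρ z (ρ n v) - ρ n (ρ z v) ∈ U) {a : Module.End ℝ E}
    (ha : a ∈ Aug ρ Z) : ∀ n ∈ N, ∀ v ∈ M, a (ρ n v) - ρ n (a v) ∈ U := by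
  unfold Aug at ha
  induction ha using Submodule.span_induction with
  | mem x hx =>
    obtain ⟨z, hz, rfl⟩ := hx
    intro n hn v hv
    change (ρ z (ρ n v) - ρ n v) - ρ n (ρ z v - v) ∈ U
    rw [map_sub]
    have e : (ρ z (ρ n v) - ρ n v) - (ρ n (ρ z v) - ρ n v) = ρ z (ρ n v) - ρ n (ρ z v) := by abel
    rw [e]
    exact h z hz n hn v hv
  | zero =>
    intro n _ v _
    change (0 : E) - ρ n 0 ∈ U
    rw [map_zero, sub_zero]
    exact U.zero_mem
  | add x y _ _ hx hy =>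
    intro n hn v hv
    change (x (ρ n v) + y (ρ n v)) - ρ n (x v + y v) ∈ U
    rw [map_add]
    have e : (x (ρ n v) + y (ρ n v)) - (ρ n (x v) + ρ n (y v)) =
        (x (ρ n v) - ρ n (x v)) + (y (ρ n v) - ρ n (y v)) := by abel
    rw [e]
    exact U.add_mem (hx n hn v hv) (hy n hn v hv)
  | smul t x _ hx =>
    intro n hn v hv
    change t • x (ρ n v) - ρ n (t • x v) ∈ U
    rw [map_smul, ← smul_sub]
    exact U.smul_mem t (hx n hn v hv)

end CEN

open CEN in
theorem t_CEN : S_LCS → S_REL → S_CEN := by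
  intro hLCS hREL K E _ _ _ _ ρ N U S M c hN hU hS hM hUS hSM hirr hnt htr hc
  classical
  obtain ⟨nrm, leN, cm⟩ := hLCS K N hN
  -- (F)
  have hF : ∀ x ∈ S, (∀ n ∈ N, ρ n x - x ∈ U) → x ∈ U := by
    have h1 : U ≤ FU ρ N U S := fun v hv => ⟨hUS.le hv, fun n _ => U.sub_mem (hU n v hv) hv⟩
    rcases hirr (FU ρ N U S) (inv_FU hN hU hS) h1 (fun v hv => hv.1) with h | h
    · intro x hx hn
      rw [← h]
      exact ⟨hx, hn⟩
    · exfalso
      apply hnt
      intro n hn v hv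
      rw [← h] at hv
      exact hv.2 n hn
  -- the last nontrivial term
  have hex : ∃ i, Triv ρ (lcs N i) U M := ⟨c, hc⟩
  have h0 : Nat.find hex ≠ 0 := by
    intro h
    have h1 := Nat.find_spec hex
    rw [h] at h1
    exact hnt fun n hn v hv => h1 n hn v (hSM.le hv)
  obtain ⟨j, hj⟩ := Nat.exists_eq_succ_of_ne_zero h0
  have hj1 : Triv ρ (lcs N (j + 1)) U M := by
    have := Nat.find_spec hex
    rwa [hj] at this
  have hj0 : ¬ Triv ρ (lcs N j) U M := Nat.find_min hex (by omega)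
  -- (2)
  have h2 : ∀ z ∈ lcs N j, ∀ n ∈ N, ∀ v ∈ M, ρ z (ρ n v) - ρ n (ρ z v) ∈ U := by
    intro z hz n hn v hv
    have e : ρ z (ρ n v) = ρ (z * n * z⁻¹ * n⁻¹) (ρ n (ρ z v)) := by
      simp only [← Module.End.mul_apply, ← map_mul]
      congr 2
      group
    rw [e]
    exact hj1 _ (cm j z hz n hn) _ (hM n _ (hM z _ hv))
  -- (3)
  have h3 : ¬ Triv ρ (lcs N j) U S := by
    intro hS0
    apply hj0
    intro z hz v hv
    refine hF _ (htr z (leN j hz) v hv) fun n hn => ?_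
    have e : ρ n (ρ z v - v) - (ρ z v - v) =
        -(ρ z (ρ n v) - ρ n (ρ z v)) + (ρ z (ρ n v - v) - (ρ n v - v)) := by
      rw [map_sub, map_sub]
      abel
    rw [e]
    exact U.add_mem (U.neg_mem (h2 z hz n hn v hv)) (hS0 z hz _ (htr n hn v hv))
  -- (4)
  obtain ⟨a, ha, hPa⟩ := hREL K E ρ (lcs N j) U S (nrm j) hU hS hUS
    (fun W' h1 h2 h3 => hirr W' h1 h2 h3) h3
  have hac := aug_comm_mod h2 ha
  have htrZ : Triv ρ (lcs N j) S M := fun z hz v hv => htr z (leN j hz) v hv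
  have haM : ∀ v ∈ M, a v ∈ S := SPL.aug_triv htrZ ha
  -- (5)
  refine ⟨FU ρ N U M, inv_FU hN hU hM, le_antisymm ?_ ?_, le_antisymm ?_ ?_⟩
  · rintro x ⟨hx1, hx2⟩
    exact hF x hx2 hx1.2
  · intro u hu
    exact ⟨⟨hSM.le (hUS.le hu), fun n _ => U.sub_mem (hU n u hu) hu⟩, hUS.le hu⟩
  · exact sup_le (fun v hv => hv.1) hSM.le
  · intro v hv
    obtain ⟨w, hw, hw2⟩ := SPL.surj hUS.le (SPL.aug_inv hS ha) (SPL.aug_inv hU ha) hPa (a v)
      (haM v hv)
    have hu : v - w ∈ FU ρ N U M := by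
      refine ⟨M.sub_mem hv (hSM.le hw), fun n hn => ?_⟩
      have huM : v - w ∈ M := M.sub_mem hv (hSM.le hw)
      have hau : a (v - w) ∈ U := by
        rw [map_sub]
        have := U.neg_mem hw2
        rwa [neg_sub] at this
      refine hPa _ (htr n hn _ huM) ?_
      have e : a (ρ n (v - w) - (v - w)) =
          (a (ρ n (v - w)) - ρ n (a (v - w))) + (ρ n (a (v - w)) - a (v - w)) := by
        rw [map_sub a]
        abel
      rw [e]
      exact U.add_mem (hac n hn _ huM) (U.sub_mem (hU n _ hau) hau)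
    have e : v = (v - w) + w := by abel
    rw [e]
    exact Submodule.add_mem_sup hu hw

end Pool.Agent.NH11.CH
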