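import Pool.Agent.NH11.CH.Stm

/-! Project CH, job CH-CHN: composition series (helper89). -/

set_option autoImplicit false

open Module

namespace Pool.Agent.NH11.CH

namespace CHN

variable {K E : Type} [Group K] [AddCommGroup E] [Module ℝ E]

/-- the elements of `Aug` preserve the invariant subspaces -/
lemma aug_inv {ρ : K →* Module.End ℝ E} {N : Subgroup K} {W : Submodule ℝ E} (hW : Inv ρ W)
    {a : Module.End ℝ E} (ha : a ∈ Aug ρ N) : ∀ v ∈ W, a v ∈ W := by
  unfold Aug at ha
  induction ha using Submodule.span_induction with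
  | mem x hx =>
    obtain ⟨n, -, rfl⟩ := hx
    intro v hv
    rw [LinearMap.sub_apply, Module.End.one_apply]
    exact W.sub_mem (hW n v hv) hv
  | zero =>
    intro v _
    rw [LinearMap.zero_apply]
    exact W.zero_mem
  | add x y _ _ h1 h2 =>
    intro v hv
    rw [LinearMap.add_apply]
    exact W.add_mem (h1 v hv) (h2 v hv)
  | smul c x _ h1 =>
    intro v hv
    rw [LinearMap.smul_apply]
    exact W.smul_mem c (h1 v hv)

/-- a minimal invariant subspace above `W` -/
lemma exists_min [FiniteDimensional ℝ E] {ρ : K →* Module.End ℝ E} {W V : Submodule ℝ E}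
    (hV : Inv ρ V) (h : W < V) : ∃ W1 : Submodule ℝ E, Inv ρ W1 ∧ W < W1 ∧ W1 ≤ V ∧
      ∀ W' : Submodule ℝ E, Inv ρ W' → W ≤ W' → W' ≤ W1 → W' = W ∨ W' = W1 := by
  obtain ⟨W1, ⟨h1, h2, h3⟩, h4⟩ := (measure fun W : Submodule ℝ E => finrank ℝ W).wf.has_min
    {W1 : Submodule ℝ E | Inv ρ W1 ∧ W < W1 ∧ W1 ≤ V} ⟨V, hV, h, le_rfl⟩
  refine ⟨W1, h1, h2, h3, fun W' h5 h6 h7 => ?_⟩
  by_cases h8 : W' = W
  · exact Or.inl h8
  · right
    have h9 : W < W' := lt_of_le_of_ne h6 (Ne.symm h8)
    have h10 := h4 W' ⟨h5, h9, h7.trans h3⟩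
    exact Submodule.eq_of_le_of_finrank_le h7 (not_lt.1 h10)

end CHN

open CHN in
/-- CHN -/
theorem t_CHN : S_REL → S_GEN → S_CHN := by
  intro hREL hGEN K E _ _ _ _ ρ N W V hN hW hV hWV
  generalize hn : finrank ℝ V - finrank ℝ W = n
  induction n using Nat.strong_induction_on generalizing W with
  | _ n ih =>
    rcases eq_or_lt_of_le hWV with h | h
    · left
      refine ⟨0, Submodule.zero_mem _, fun v hv _ => ?_⟩
      rw [h]
      exact hv
    · obtain ⟨W1, hW1, hlt, hle, hmin⟩ := exists_min hV h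
      by_cases hT : Triv ρ N W W1
      · exact Or.inr ⟨W, W1, hW, hW1, le_rfl, hlt, hle, hT⟩
      · obtain ⟨a1, ha1, hP1⟩ := hREL K E ρ N W W1 hN hW hW1 hlt hmin hT
        have f1 := Submodule.finrank_lt_finrank_of_lt hlt
        have f2 := Submodule.finrank_mono hle
        rcases ih (finrank ℝ V - finrank ℝ W1) (by omega) W1 hW1 hle rfl with
          ⟨a2, ha2, hP2⟩ | ⟨W', W'', g1, g2, g3, g4, g5, g6⟩
        · left
          have s1 := hGEN E a1 a2 W W1 hlt.le (aug_inv hW1 ha1) (aug_inv hW ha1) (aug_inv hW1 ha2)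
            (aug_inv hW ha2) (Or.inl hP1)
          have s2 := hGEN E a1 a2 W1 V hle (aug_inv hV ha1) (aug_inv hW1 ha1) (aug_inv hV ha2)
            (aug_inv hW1 ha2) (Or.inr hP2)
          obtain ⟨t, ht⟩ := (s1.union s2).infinite_compl.nonempty
          rw [Set.mem_compl_iff, Set.mem_union, not_or] at ht
          have p1 : P (a1 + t • a2) W W1 := not_not.1 ht.1
          have p2 : P (a1 + t • a2) W1 V := not_not.1 ht.2
          refine ⟨a1 + t • a2, Submodule.add_mem _ ha1 (Submodule.smul_mem _ t ha2), ?_⟩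
          intro v hv hav
          exact p1 v (p2 v hv (hlt.le hav)) hav
        · exact Or.inr ⟨W', W'', g1, g2, hlt.le.trans g3, g4, g5, g6⟩

end Pool.Agent.NH11.CH
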