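import Pool.Agent.NH11.CH.Stm3

/-!
# Commuting normal subgroups of affine groups: products in dimension at most five

Written by helper35.
-/

set_option autoImplicit false

open Module

namespace Pool.Agent.NH11.CH

namespace D5

variable {K E : Type} [Group K] [AddCommGroup E] [Module ℝ E]

theorem inv_bot (ρ : K →* Module.End ℝ E) : Inv ρ (⊥ : Submodule ℝ E) := by
  intro k v hv
  rw [Submodule.mem_bot] at hv ⊢
  rw [hv, map_zero]

theorem inv_inf {ρ : K →* Module.End ℝ E} {A B : Submodule ℝ E} (hA : Inv ρ A) (hB : Inv ρ B) :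
    Inv ρ (A ⊓ B) := fun k v hv => ⟨hA k v hv.1, hB k v hv.2⟩

/-- `WN ≠ V` -/
theorem ne_top [FiniteDimensional ℝ E] (hmod : S_MOD) (hkey : S_KEY) {ρ : K →* Module.End ℝ E}
    {N C : Subgroup K} {V WN WC : Submodule ℝ E} (p : PD ρ N C V WN WC) (hC : WC ≠ ⊥) :
    WN ≠ V := by
  intro hV
  have hI : WN ⊓ WC = WC := by
    rw [hV]
    exact inf_eq_right.2 p.rC.le
  set S : Set (Submodule ℝ E) := {J | Inv ρ J ∧ J < WC} with hS
  have hne : S.Nonempty := ⟨⊥, inv_bot ρ, bot_lt_iff_ne_bot.2 hC⟩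
  obtain ⟨J, hJ, hmax⟩ := (wellFounded_gt (α := Submodule ℝ E)).has_min S hne
  have hmax' : ∀ J' : Submodule ℝ E, Inv ρ J' → J ≤ J' → J' < WC → J' = J := by
    intro J' h1 h2 h3
    by_contra h4
    exact hmax J' ⟨h1, h3⟩ (lt_of_le_of_ne h2 (Ne.symm h4))
  have h1 : ¬ Triv ρ C J (WN ⊓ WC) := by
    refine hkey K E ρ N C V WN WC p J hJ.1 (by rw [hI]; exact hJ.2) fun J' h2 h3 h4 => ?_
    rw [hI] at h4 ⊢
    rcases eq_or_lt_of_le h4 with h5 | h5
    · exact Or.inr h5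
    · exact Or.inl (hmax' J' h2 h3 h5)
  rw [hI] at h1
  obtain ⟨W', W'', i1, i2, h2, h3, h4, h5⟩ := hmod K E ρ C V WC J p.rC hJ.1 hJ.2
  have e1 : W' = J := hmax' W' i1 h2 (h3.trans_le h4)
  have e2 : W'' = WC := by
    by_contra h6
    have h7 := hmax' W'' i2 (h2.trans h3.le) (lt_of_le_of_ne h4 h6)
    rw [h7, e1] at h3
    exact lt_irrefl _ h3
  rw [e1, e2] at h5
  exact h1 h5

/-- there are no one-dimensional steps -/
theorem two_le [FiniteDimensional ℝ E] {ρ : K →* Module.End ℝ E}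
    {N C : Subgroup K} {V WN WC : Submodule ℝ E} (p : PD ρ N C V WN WC) {A B : Submodule ℝ E}
    (hA : Inv ρ A) (hB : Inv ρ B) (hAB : A < B) (hBV : B ≤ V) : finrank ℝ A + 2 ≤ finrank ℝ B := by
  have h1 := Submodule.finrank_lt_finrank_of_lt hAB
  have h2 := p.line A B hAB.le hBV hA hB
  omega

end D5

theorem t_D5 : S_MOD → S_KEY → S_D5 := by
  intro hmod hkey K E _ _ _ _ ρ N C V WN WC p q hdim
  by_contra hcon
  push Not at hcon
  obtain ⟨hN, hC, hI⟩ := hcon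
  have h1 : WN < V := lt_of_le_of_ne p.rN.le (D5.ne_top hmod hkey p hC)
  have h2 : WC < V := lt_of_le_of_ne p.rC.le (D5.ne_top hmod hkey q hN)
  have iI : Inv ρ (WN ⊓ WC) := D5.inv_inf p.rN.inv p.rC.inv
  have d1 := D5.two_le p p.rN.inv p.inv h1 le_rfl
  have d2 := D5.two_le p p.rC.inv p.inv h2 le_rfl
  have d3 := D5.two_le p (D5.inv_bot ρ) iI (bot_lt_iff_ne_bot.2 hI) (inf_le_left.trans p.rN.le)
  have d4 := Submodule.finrank_sup_add_finrank_inf_eq WN WC
  rw [p.sup] at d4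
  omega

end Pool.Agent.NH11.CH
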