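import Pool.Agent.NH11.CH.Stm

/-!
# GEN: injectivity on `V / W` is a generic property
-/

set_option autoImplicit false

open Module

namespace Pool.Agent.NH11.CH

namespace GEN

variable {E : Type} [AddCommGroup E] [Module ℝ E]

/-- the endomorphism of `V / W` induced by `c` -/
def ind (c : Module.End ℝ E) (W V : Submodule ℝ E) (hV : ∀ v ∈ V, c v ∈ V)
    (hW : ∀ v ∈ W, c v ∈ W) : (V ⧸ W.comap V.subtype) →ₗ[ℝ] (V ⧸ W.comap V.subtype) :=
  (W.comap V.subtype).mapQ (W.comap V.subtype) (c.restrict hV) (by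
    intro v hv
    exact hW _ hv)

theorem ind_mk (c : Module.End ℝ E) (W V : Submodule ℝ E) (hV : ∀ v ∈ V, c v ∈ V)
    (hW : ∀ v ∈ W, c v ∈ W) (v : V) :
    ind c W V hV hW (Submodule.Quotient.mk v) = Submodule.Quotient.mk ⟨c v, hV v v.2⟩ := rfl

theorem P_iff (c : Module.End ℝ E) (W V : Submodule ℝ E) (hV : ∀ v ∈ V, c v ∈ V)
    (hW : ∀ v ∈ W, c v ∈ W) : P c W V ↔ Function.Injective (ind c W V hV hW) := by
  rw [injective_iff_map_eq_zero]
  constructor
  · intro h q
    obtain ⟨v, rfl⟩ := Submodule.Quotient.mk_surjective _ q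
    intro h1
    rw [ind_mk, Submodule.Quotient.mk_eq_zero] at h1
    rw [Submodule.Quotient.mk_eq_zero]
    exact h v v.2 h1
  · intro h v hv hcv
    have h1 := h (Submodule.Quotient.mk ⟨v, hv⟩) (by
      rw [ind_mk, Submodule.Quotient.mk_eq_zero]
      exact hcv)
    rw [Submodule.Quotient.mk_eq_zero] at h1
    exact h1

theorem inj_iff {Q : Type} [AddCommGroup Q] [Module ℝ Q] [FiniteDimensional ℝ Q]
    (f : Q →ₗ[ℝ] Q) : Function.Injective f ↔
      (LinearMap.toMatrix (Module.finBasis ℝ Q) (Module.finBasis ℝ Q) f).det ≠ 0 := by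
  rw [LinearMap.det_toMatrix, ← LinearMap.ker_eq_bot, ← LinearMap.isUnit_iff_ker_eq_bot,
    LinearMap.isUnit_iff_isUnit_det, isUnit_iff_ne_zero]

theorem fin_of {n : ℕ} (A B : Matrix (Fin n) (Fin n) ℝ) (h : A.det ≠ 0 ∨ B.det ≠ 0) :
    {t : ℝ | (A + t • B).det = 0}.Finite := by
  obtain ⟨p, hp⟩ : ∃ p : Polynomial ℝ, p = ((Polynomial.X : Polynomial ℝ) • B.map Polynomial.C +
    A.map Polynomial.C).det := ⟨_, rfl⟩
  have hp0 : p ≠ 0 := by
    intro h0
    rcases h with h | h
    · apply h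
      rw [← Polynomial.coeff_det_X_add_C_zero B A, ← hp, h0, Polynomial.coeff_zero]
    · apply h
      rw [← Polynomial.coeff_det_X_add_C_card B A, ← hp, h0, Polynomial.coeff_zero]
  refine (p.roots.toFinset.finite_toSet).subset ?_
  intro t ht
  rw [Finset.mem_coe, Multiset.mem_toFinset, Polynomial.mem_roots hp0, Polynomial.IsRoot.def, hp]
  have h1 := RingHom.map_det (Polynomial.evalRingHom t)
    ((Polynomial.X : Polynomial ℝ) • B.map Polynomial.C + A.map Polynomial.C)
  rw [Polynomial.coe_evalRingHom] at h1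
  rw [h1]
  have h2 : (Polynomial.evalRingHom t).mapMatrix
      ((Polynomial.X : Polynomial ℝ) • B.map Polynomial.C + A.map Polynomial.C) = A + t • B := by
    ext i j
    simp
    ring
  rw [h2]
  exact ht

end GEN

open GEN in
theorem t_GEN : S_GEN := by
  intro E _ _ _ a b W V hWV haV haW hbV hbW h
  have hcV : ∀ t : ℝ, ∀ v ∈ V, (a + t • b) v ∈ V := fun t v hv =>
    V.add_mem (haV v hv) (V.smul_mem t (hbV v hv))
  have hcW : ∀ t : ℝ, ∀ v ∈ W, (a + t • b) v ∈ W := fun t v hv =>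
    W.add_mem (haW v hv) (W.smul_mem t (hbW v hv))
  have hlin : ∀ t : ℝ, ind (a + t • b) W V (hcV t) (hcW t) =
      ind a W V haV haW + t • ind b W V hbV hbW := by
    intro t
    refine LinearMap.ext fun q => ?_
    obtain ⟨v, rfl⟩ := Submodule.Quotient.mk_surjective _ q
    rfl
  refine (fin_of
    (LinearMap.toMatrix (Module.finBasis ℝ (V ⧸ W.comap V.subtype))
      (Module.finBasis ℝ (V ⧸ W.comap V.subtype)) (ind a W V haV haW))
    (LinearMap.toMatrix (Module.finBasis ℝ (V ⧸ W.comap V.subtype))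
      (Module.finBasis ℝ (V ⧸ W.comap V.subtype)) (ind b W V hbV hbW)) ?_).subset ?_
  · rcases h with h | h
    · exact Or.inl ((inj_iff _).1 ((P_iff a W V haV haW).1 h))
    · exact Or.inr ((inj_iff _).1 ((P_iff b W V hbV hbW).1 h))
  · intro t ht
    by_contra h1
    apply ht
    rw [P_iff _ W V (hcV t) (hcW t), inj_iff, hlin, map_add, map_smul]
    exact h1

end Pool.Agent.NH11.CH
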