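import Pool.Agent.NH11.CH.Stm3
import Pool.Agent.NH11.CH.SPL
import Pool.Agent.NH11.CH.DIM

/-!
# Commuting normal subgroups of affine groups: the top factors of `WN ⊓ WC`
-/

set_option autoImplicit false

open Module

namespace Pool.Agent.NH11.CH

namespace KEY

variable {K E : Type} [Group K] [AddCommGroup E] [Module ℝ E]

theorem aug_comm {ρ : K →* Module.End ℝ E} {N C : Subgroup K} {V : Submodule ℝ E}
    (h : ∀ n ∈ N, ∀ c ∈ C, ∀ v ∈ V, ρ n (ρ c v) = ρ c (ρ n v)) {a : Module.End ℝ E}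
    (ha : a ∈ Aug ρ N) : ∀ c ∈ C, ∀ v ∈ V, a (ρ c v) = ρ c (a v) := by
  unfold Aug at ha
  induction ha using Submodule.span_induction with
  | mem x hx =>
    obtain ⟨n, hn, rfl⟩ := hx
    intro c hc v hv
    change ρ n (ρ c v) - ρ c v = ρ c (ρ n v - v)
    rw [map_sub, h n hn c hc v hv]
  | zero => exact fun c _ v _ => (map_zero _).symm
  | add x y _ _ hx hy =>
    intro c hc v hv
    change x (ρ c v) + y (ρ c v) = ρ c (x v + y v)
    rw [map_add, hx c hc v hv, hy c hc v hv]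
  | smul t x _ hx =>
    intro c hc v hv
    change t • x (ρ c v) = ρ c (t • x v)
    rw [map_smul, hx c hc v hv]

end KEY

theorem t_KEY : S_REL → S_MOD → S_KEY := by
  intro hREL hMOD K E _ _ _ _ ρ N C V WN WC p J hJ hJI hmax hTC
  have hWN := p.rN.inv
  have hWC := p.rC.inv
  have hIi : Inv ρ (WN ⊓ WC) := DIM.inv_inf hWN hWC
  have hIV : WN ⊓ WC ≤ V := inf_le_left.trans p.rN.le
  -- `N` is nontrivial on `I / J`
  have hTN : ¬ Triv ρ N J (WN ⊓ WC) := fun h => DIM.both p.line p.prod hJ hIi hJI hIV h hTC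
  obtain ⟨a, ha, hPa⟩ := hREL K E ρ N J (WN ⊓ WC) p.nN hJ hIi hJI hmax hTN
  -- `N` moves the vectors of `WN` by vectors in `I`
  have hNI : ∀ n ∈ N, ∀ v ∈ WN, ρ n v - v ∈ WN ⊓ WC := fun n hn v hv =>
    ⟨WN.sub_mem (hWN n v hv) hv, p.tN n hn v (p.rN.le hv)⟩
  obtain ⟨T, hT⟩ : ∃ T : Submodule ℝ E, ∀ v, v ∈ T ↔ v ∈ WN ∧ ∀ n ∈ N, ρ n v - v ∈ J :=
    ⟨{ carrier := {v | v ∈ WN ∧ ∀ n ∈ N, ρ n v - v ∈ J}
       zero_mem' := ⟨WN.zero_mem, fun n _ => by rw [map_zero, sub_zero]; exact J.zero_mem⟩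
       add_mem' := fun {x y} hx hy => ⟨WN.add_mem hx.1 hy.1, fun n hn => by
         have h1 : ρ n (x + y) - (x + y) = (ρ n x - x) + (ρ n y - y) := by
           rw [map_add]; abel
         rw [h1]
         exact J.add_mem (hx.2 n hn) (hy.2 n hn)⟩
       smul_mem' := fun t x hx => ⟨WN.smul_mem t hx.1, fun n hn => by
         rw [map_smul, ← smul_sub]
         exact J.smul_mem t (hx.2 n hn)⟩ }, fun v => Iff.rfl⟩
  have hTi : Inv ρ T := by
    intro k v hv
    rw [hT] at hv ⊢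
    refine ⟨hWN k v hv.1, fun n hn => ?_⟩
    have h5 : k⁻¹ * n * k ∈ N := by
      have := p.nN.conj_mem n hn k⁻¹
      rwa [inv_inv] at this
    have h7 : ρ n (ρ k v) = ρ k (ρ (k⁻¹ * n * k) v) := by
      rw [← Module.End.mul_apply, ← Module.End.mul_apply, ← map_mul, ← map_mul]
      congr 2
      group
    rw [h7, ← map_sub]
    exact hJ k _ (hv.2 _ h5)
  have hTWN : T ≤ WN := fun v hv => ((hT v).1 hv).1
  have hJT : J ≤ T := fun v hv => (hT v).2 ⟨(hJI.le hv).1, fun n _ => J.sub_mem (hJ n v hv) hv⟩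
  have hTtr : Triv ρ N J T := fun n hn v hv => ((hT v).1 hv).2 n hn
  have hIT : ¬ WN ⊓ WC ≤ T := fun h => hTN fun n hn v hv => hTtr n hn v (h hv)
  -- `C` is trivial on `WN / T`
  have hCT : ∀ c ∈ C, ∀ v ∈ WN, ρ c v - v ∈ T := by
    intro c hc v hv
    rw [hT]
    refine ⟨WN.sub_mem (hWN c v hv) hv, fun n hn => ?_⟩
    have h1 : ρ n (ρ c v - v) - (ρ c v - v) = ρ c (ρ n v - v) - (ρ n v - v) := by
      rw [map_sub, map_sub, p.comm n hn c hc v (p.rN.le hv)]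
      abel
    rw [h1]
    exact hTC c hc _ (hNI n hn v hv)
  -- `WN = T ⊔ I`
  have hsup : T ⊔ (WN ⊓ WC) = WN := by
    by_contra hne
    refine DIM.notriv p.line (P := T ⊔ (WN ⊓ WC)) (Q := WN) ?_
      (lt_of_le_of_ne (sup_le hTWN inf_le_left) hne) p.rN.le ?_
    · intro k v hv
      rw [Submodule.mem_sup] at hv ⊢
      obtain ⟨x, hx, y, hy, rfl⟩ := hv
      exact ⟨ρ k x, hTi k x hx, ρ k y, hIi k y hy, (map_add _ _ _).symm⟩
    · intro k v hv
      obtain ⟨n, hn, c, hc, h⟩ := p.prod k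
      have h1 : ρ n (ρ c v) - v = (ρ n (ρ c v) - ρ c v) + (ρ c v - v) := by abel
      rw [h v (p.rN.le hv), h1]
      exact Submodule.add_mem _ (Submodule.mem_sup_right (hNI n hn _ (hWN c v hv)))
        (Submodule.mem_sup_left (hCT c hc v hv))
  have hTlt : T < WN := by
    refine lt_of_le_of_ne hTWN fun h => hIT ?_
    rw [h]
    exact inf_le_left
  have hTinf : T ⊓ (WN ⊓ WC) = J := by
    rcases hmax (T ⊓ (WN ⊓ WC)) (DIM.inv_inf hTi hIi) (le_inf hJT hJI.le) inf_le_right with h | h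
    · exact h
    · exact absurd (inf_eq_right.1 h) hIT
  obtain ⟨W', W'', i1, i2, l1, l2, l3, t⟩ := hMOD K E ρ N V WN T p.rN hTi hTlt
  refine SPL.no_triv hTi ha (V := WN) (fun v hv hav => ?_) i1 l1 l3 l2 t
  rw [← hsup, Submodule.mem_sup] at hv
  obtain ⟨x, hx, y, hy, rfl⟩ := hv
  refine T.add_mem hx (hJT (hPa y hy ?_))
  rw [← hTinf]
  refine ⟨?_, SPL.aug_inv hIi ha y hy⟩
  have h1 : a y = a (x + y) - a x := by
    rw [map_add]; abel
  rw [h1]
  exact T.sub_mem hav (hJT (SPL.aug_triv hTtr ha x hx))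

end Pool.Agent.NH11.CH
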