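import Pool.Agent.NH11.CH.Stm3

/-!
# Commuting normal subgroups of affine groups: trivial factors inside the residue (helper8)
-/

set_option autoImplicit false

open Module

namespace Pool.Agent.NH11.CH

namespace MOD

variable {K E : Type} [Group K] [AddCommGroup E] [Module ℝ E] {ρ : K →* Module.End ℝ E}

theorem inv_sup {A B : Submodule ℝ E} (hA : Inv ρ A) (hB : Inv ρ B) : Inv ρ (A ⊔ B) := by
  intro k v hv
  obtain ⟨a, ha, b, hb, rfl⟩ := Submodule.mem_sup.1 hv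
  rw [map_add]
  exact Submodule.add_mem_sup (hA k a ha) (hB k b hb)

theorem inv_inf {A B : Submodule ℝ E} (hA : Inv ρ A) (hB : Inv ρ B) : Inv ρ (A ⊓ B) :=
  fun k v hv => ⟨hA k v hv.1, hB k v hv.2⟩

theorem triv_sup {N : Subgroup K} {A B W : Submodule ℝ E} (hW : Inv ρ W) (h : Triv ρ N A B) :
    Triv ρ N (A ⊔ W) (B ⊔ W) := by
  intro n hn v hv
  obtain ⟨a, ha, w, hw, rfl⟩ := Submodule.mem_sup.1 hv
  have h1 : ρ n (a + w) - (a + w) = (ρ n a - a) + (ρ n w - w) := by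
    rw [map_add]
    abel
  rw [h1]
  exact Submodule.add_mem_sup (h n hn a ha) (W.sub_mem (hW n w hw) hw)

theorem triv_inf {N : Subgroup K} {A B W : Submodule ℝ E} (hW : Inv ρ W) (h : Triv ρ N A B) :
    Triv ρ N (A ⊓ W) (B ⊓ W) :=
  fun n hn v hv => ⟨h n hn v hv.1, W.sub_mem (hW n v hv.2) hv.2⟩

end MOD

theorem t_MOD : S_MOD := by
  intro K E _ _ _ ρ N V W U r hU hUW
  obtain ⟨A, B, hA, hB, hUA, hAB, hBV, hT⟩ := r.below U hU hUW
  have h1 : ¬ (A ⊔ W < B ⊔ W) := fun h =>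
    r.above _ _ (MOD.inv_sup hA r.inv) (MOD.inv_sup hB r.inv) le_sup_right h
      (sup_le hBV r.le) (MOD.triv_sup r.inv hT)
  have h2 : A ⊔ W = B ⊔ W := by
    by_contra h3
    exact h1 (lt_of_le_of_ne (sup_le_sup_right hAB.le W) h3)
  refine ⟨A ⊓ W, B ⊓ W, MOD.inv_inf hA r.inv, MOD.inv_inf hB r.inv, le_inf hUA hUW.le, ?_,
    inf_le_right, MOD.triv_inf r.inv hT⟩
  refine lt_of_le_of_ne (inf_le_inf_right W hAB.le) fun h3 => hAB.ne ?_
  exact eq_of_le_of_inf_le_of_sup_le hAB.le h3.ge h2.ge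

end Pool.Agent.NH11.CH
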