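import Pool.Agent.NH11.CH.Stm

/-!
# Commuting normal subgroups of affine groups: the case of an irreducible factor
-/

set_option autoImplicit false

open Module

namespace Pool.Agent.NH11.CH

namespace REL

section

variable {K E : Type} [Group K] [AddCommGroup E] [Module ℝ E]
variable (ρ : K →* Module.End ℝ E) {W V : Submodule ℝ E}

/-- the representation on `V / W` -/
noncomputable def rq (hW : Inv ρ W) (hV : Inv ρ V) :
    K →* Module.End ℝ (V ⧸ W.submoduleOf V) where
  toFun k := (W.submoduleOf V).mapQ (W.submoduleOf V)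
    ((ρ k).restrict (fun v hv => hV k v hv)) (fun v hv => hW k v.1 hv)
  map_one' := by
    apply LinearMap.ext
    intro x
    obtain ⟨v, rfl⟩ := Submodule.Quotient.mk_surjective _ x
    show Submodule.Quotient.mk ((ρ 1).restrict (fun v hv => hV 1 v hv) v) =
      Submodule.Quotient.mk v
    congr 1
    apply Subtype.ext
    show ρ 1 v.1 = v.1
    rw [map_one]
    rfl
  map_mul' a b := by
    apply LinearMap.ext
    intro x
    obtain ⟨v, rfl⟩ := Submodule.Quotient.mk_surjective _ x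
    show Submodule.Quotient.mk ((ρ (a * b)).restrict (fun v hv => hV (a * b) v hv) v) =
      Submodule.Quotient.mk ((ρ a).restrict (fun v hv => hV a v hv)
        ((ρ b).restrict (fun v hv => hV b v hv) v))
    congr 1
    apply Subtype.ext
    show ρ (a * b) v.1 = ρ a (ρ b v.1)
    rw [map_mul]
    rfl

lemma rq_mk (hW : Inv ρ W) (hV : Inv ρ V) (k : K) (v : V) :
    rq ρ hW hV k (Submodule.Quotient.mk v) = Submodule.Quotient.mk ⟨ρ k v.1, hV k v.1 v.2⟩ := rfl

lemma mk_zero_iff (v : V) :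
    (Submodule.Quotient.mk v : V ⧸ W.submoduleOf V) = 0 ↔ v.1 ∈ W := by
  rw [Submodule.Quotient.mk_eq_zero]
  rfl

/-- the elements of the augmentation module of the quotient are induced -/
lemma lift (N : Subgroup K) (hW : Inv ρ W) (hV : Inv ρ V)
    (a' : Module.End ℝ (V ⧸ W.submoduleOf V)) (ha' : a' ∈ Aug (rq ρ hW hV) N) :
    ∃ a ∈ Aug ρ N, ∀ v : V, ∃ h : a v.1 ∈ V,
      a' (Submodule.Quotient.mk v) = Submodule.Quotient.mk ⟨a v.1, h⟩ := by
  unfold Aug at ha'
  induction ha' using Submodule.span_induction with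
  | mem x hx =>
    obtain ⟨n, hn, rfl⟩ := hx
    refine ⟨ρ n - 1, Submodule.subset_span ⟨n, hn, rfl⟩, fun v => ⟨?_, ?_⟩⟩
    · show ρ n v.1 - v.1 ∈ V
      exact V.sub_mem (hV n v.1 v.2) v.2
    · show rq ρ hW hV n (Submodule.Quotient.mk v) - Submodule.Quotient.mk v = _
      rw [rq_mk, ← Submodule.Quotient.mk_sub]
      rfl
  | zero =>
    refine ⟨0, Submodule.zero_mem _, fun v => ⟨?_, ?_⟩⟩
    · show (0 : E) ∈ V
      exact V.zero_mem
    · rfl
  | add x y hx hy ihx ihy =>
    obtain ⟨a, ha, ha1⟩ := ihx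
    obtain ⟨b, hb, hb1⟩ := ihy
    refine ⟨a + b, Submodule.add_mem _ ha hb, fun v => ?_⟩
    obtain ⟨h1, h2⟩ := ha1 v
    obtain ⟨h3, h4⟩ := hb1 v
    refine ⟨V.add_mem h1 h3, ?_⟩
    show x (Submodule.Quotient.mk v) + y (Submodule.Quotient.mk v) = _
    rw [h2, h4, ← Submodule.Quotient.mk_add]
    rfl
  | smul c x hx ih =>
    obtain ⟨a, ha, ha1⟩ := ih
    refine ⟨c • a, Submodule.smul_mem _ c ha, fun v => ?_⟩
    obtain ⟨h1, h2⟩ := ha1 v
    refine ⟨V.smul_mem c h1, ?_⟩
    show c • x (Submodule.Quotient.mk v) = _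
    rw [h2, ← Submodule.Quotient.mk_smul]
    rfl

end

end REL

open REL in
/-- REL: the case of an irreducible factor -/
theorem t_REL : S_SZ → S_REL := by
  intro hSZ K E _ _ _ _ ρ N W V hN hW hV hlt hirr hTriv
  -- the quotient is irreducible
  have h1 : ∀ U : Submodule ℝ (V ⧸ W.submoduleOf V), Inv (rq ρ hW hV) U → U = ⊥ ∨ U = ⊤ := by
    intro U hU
    have hmem : ∀ x : E, x ∈ (U.comap (W.submoduleOf V).mkQ).map V.subtype ↔
        ∃ h : x ∈ V, (Submodule.Quotient.mk ⟨x, h⟩ : V ⧸ W.submoduleOf V) ∈ U := by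
      intro x
      constructor
      · rintro ⟨v, hv, rfl⟩
        exact ⟨v.2, hv⟩
      · rintro ⟨h, hx⟩
        exact ⟨⟨x, h⟩, hx, rfl⟩
    have hinv : Inv ρ ((U.comap (W.submoduleOf V).mkQ).map V.subtype) := by
      intro k v hv
      rw [hmem] at hv ⊢
      obtain ⟨h, hx⟩ := hv
      refine ⟨hV k v h, ?_⟩
      have := hU k _ hx
      rw [rq_mk] at this
      exact this
    have hle1 : W ≤ (U.comap (W.submoduleOf V).mkQ).map V.subtype := by
      intro v hv
      rw [hmem]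
      refine ⟨hlt.le hv, ?_⟩
      have : (Submodule.Quotient.mk ⟨v, hlt.le hv⟩ : V ⧸ W.submoduleOf V) = 0 :=
        (mk_zero_iff _).2 hv
      rw [this]
      exact U.zero_mem
    have hle2 : (U.comap (W.submoduleOf V).mkQ).map V.subtype ≤ V := by
      intro v hv
      rw [hmem] at hv
      exact hv.1
    rcases hirr _ hinv hle1 hle2 with h | h
    · left
      rw [eq_bot_iff]
      intro x hx
      obtain ⟨v, rfl⟩ := Submodule.Quotient.mk_surjective _ x
      have h2 : v.1 ∈ (U.comap (W.submoduleOf V).mkQ).map V.subtype := (hmem v.1).2 ⟨v.2, hx⟩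
      rw [h] at h2
      rw [Submodule.mem_bot]
      exact (mk_zero_iff v).2 h2
    · right
      rw [eq_top_iff]
      intro x _
      obtain ⟨v, rfl⟩ := Submodule.Quotient.mk_surjective _ x
      have h2 : v.1 ∈ (U.comap (W.submoduleOf V).mkQ).map V.subtype := by
        rw [h]
        exact v.2
      exact ((hmem v.1).1 h2).2
  -- it is not trivial
  have h2 : ∃ n ∈ N, rq ρ hW hV n ≠ 1 := by
    unfold Triv at hTriv
    push Not at hTriv
    obtain ⟨n, hn, v, hv, hnv⟩ := hTriv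
    refine ⟨n, hn, fun h => hnv ?_⟩
    have h3 : rq ρ hW hV n (Submodule.Quotient.mk ⟨v, hv⟩) = Submodule.Quotient.mk ⟨v, hv⟩ := by
      rw [h]
      rfl
    rw [rq_mk, Submodule.Quotient.eq] at h3
    exact h3
  obtain ⟨a', ha', hinj⟩ := hSZ K (V ⧸ W.submoduleOf V) (rq ρ hW hV) N hN h1 h2
  obtain ⟨a, ha, hav⟩ := lift ρ N hW hV a' ha'
  refine ⟨a, ha, ?_⟩
  intro v hv hvW
  obtain ⟨h, h3⟩ := hav ⟨v, hv⟩
  have h4 : a' (Submodule.Quotient.mk ⟨v, hv⟩) = a' 0 := by
    rw [h3, map_zero]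
    exact (mk_zero_iff _).2 hvW
  have h5 := hinj h4
  exact (mk_zero_iff _).1 h5

end Pool.Agent.NH11.CH
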