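import Pool.Agent.NH11.CH.Stm

set_option autoImplicit false

open Module

namespace Pool.Agent.NH11.CH

theorem t_RK : S_RK := by
  intro U _ _ _ A B k hk hB
  obtain ⟨s, hs⟩ := A.rangeRestrict.exists_rightInverse_of_surjective
    (LinearMap.range_rangeRestrict A)
  have hs' : ∀ y : LinearMap.range A, A (s y) = y := by
    intro y
    have := LinearMap.congr_fun hs y
    exact congrArg Subtype.val this
  obtain ⟨L0, hL0⟩ : ∃ L0 : (LinearMap.range A × ℝ) →ₗ[ℝ] U,
      ∀ p, L0 p = (p.1 : U) + p.2 • B k :=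
    ⟨(LinearMap.range A).subtype.coprod (LinearMap.toSpanSingleton ℝ U (B k)), fun p => by simp⟩
  obtain ⟨D, hD⟩ : ∃ D : (LinearMap.range A × ℝ) →ₗ[ℝ] U, ∀ p, D p = B (s p.1) :=
    ⟨(B ∘ₗ s) ∘ₗ LinearMap.fst ℝ _ _, fun p => rfl⟩
  have hker : LinearMap.ker L0 = ⊥ := by
    rw [LinearMap.ker_eq_bot']
    rintro ⟨y, c⟩ h
    rw [hL0] at h
    simp only at h
    have hc : c = 0 := by
      by_contra hc
      apply hB
      have h1 : B k = -(c⁻¹ • (y : U)) := by
        have h2 : c • B k = -(y : U) := by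
          rw [eq_neg_iff_add_eq_zero, add_comm]
          exact h
        rw [← smul_neg, ← h2, smul_smul, inv_mul_cancel₀ hc, one_smul]
      rw [h1]
      exact neg_mem (Submodule.smul_mem _ _ y.2)
    subst hc
    rw [zero_smul, add_zero] at h
    have hy : y = 0 := Subtype.ext h
    rw [hy]
    rfl
  obtain ⟨M, hM⟩ := L0.exists_leftInverse_of_injective hker
  have hM' : ∀ p, M (L0 p) = p := fun p => LinearMap.congr_fun hM p
  let C : Module.End ℝ (LinearMap.range A × ℝ) := M ∘ₗ D
  obtain ⟨μ, hμ⟩ := ((Module.End.finite_hasEigenvalue C).union (Set.finite_singleton (0:ℝ))).exists_notMem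
  have hμ0 : μ ≠ 0 := fun h => hμ (Or.inr h)
  have hμ1 : ¬ C.HasEigenvalue μ := fun h => hμ (Or.inl h)
  refine ⟨-μ⁻¹, ?_⟩
  have hinj : Function.Injective (L0 + (-μ⁻¹) • D) := by
    rw [← LinearMap.ker_eq_bot, LinearMap.ker_eq_bot']
    intro p hp
    by_contra hp0
    apply hμ1
    have h1 : p + (-μ⁻¹) • C p = 0 := by
      have h2 := congrArg M hp
      rw [LinearMap.add_apply, LinearMap.smul_apply, map_add, map_smul, hM', map_zero] at h2
      exact h2
    have h3 : C p = μ • p := by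
      have h4 : p = μ⁻¹ • C p := by
        rw [neg_smul, add_neg_eq_zero] at h1
        exact h1
      calc C p = μ • (μ⁻¹ • C p) := by rw [smul_smul, mul_inv_cancel₀ hμ0, one_smul]
        _ = μ • p := by rw [← h4]
    exact Module.End.hasEigenvalue_of_hasEigenvector
      (Module.End.hasEigenvector_iff.2 ⟨Module.End.mem_eigenspace_iff.2 h3, hp0⟩)
  have hrange : LinearMap.range (L0 + (-μ⁻¹) • D) ≤ LinearMap.range (A + (-μ⁻¹) • B) := by
    rintro _ ⟨⟨y, c⟩, rfl⟩
    have h1 : (L0 + (-μ⁻¹) • D) (y, c) = (A + (-μ⁻¹) • B) (s y) +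
        (A + (-μ⁻¹) • B) ((c * (-μ)) • k) := by
      simp only [LinearMap.add_apply, LinearMap.smul_apply, hL0, hD, map_smul, hk, hs']
      rw [zero_add, smul_smul]
      have : c * -μ * -μ⁻¹ = c := by field_simp
      rw [this]
      abel
    rw [h1]
    exact add_mem ⟨_, rfl⟩ ⟨_, rfl⟩
  have h5 := Submodule.finrank_mono hrange
  rw [LinearMap.finrank_range_of_inj hinj, Module.finrank_prod, Module.finrank_self] at h5
  omega

end Pool.Agent.NH11.CH
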