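import Pool.Agent.NH11.CH.Stm

/-!
# The case of a simple module: an operator of maximal rank
-/

set_option autoImplicit false

open Module

namespace Pool.Agent.NH11.CH

namespace SIM

variable {K E : Type} [Group K] [AddCommGroup E] [Module ℝ E]

/-- the operators of `Aug ρ N` preserve every `N`-invariant subspace -/
theorem augInv (ρ : K →* Module.End ℝ E) (N : Subgroup K) (W : Submodule ℝ E)
    (hW : InvN ρ N W) (a : Module.End ℝ E) (ha : a ∈ Aug ρ N) : ∀ v ∈ W, a v ∈ W := by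
  intro v hv
  refine Submodule.span_induction (p := fun a _ => a v ∈ W) ?_ ?_ ?_ ?_ ha
  · rintro x ⟨n, hn, rfl⟩
    simp only [LinearMap.sub_apply, Module.End.one_apply]
    exact W.sub_mem (hW n hn v hv) hv
  · simp
  · intro x y _ _ hx hy
    simp only [LinearMap.add_apply]
    exact W.add_mem hx hy
  · intro c x _ hx
    simp only [LinearMap.smul_apply]
    exact W.smul_mem c hx

/-- `Aug ρ N` is closed under left multiplication by `ρ n` -/
theorem augMul (ρ : K →* Module.End ℝ E) (N : Subgroup K) (n : K) (hn : n ∈ N)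
    (a : Module.End ℝ E) (ha : a ∈ Aug ρ N) : ρ n * a ∈ Aug ρ N := by
  refine Submodule.span_induction (p := fun a _ => ρ n * a ∈ Aug ρ N) ?_ ?_ ?_ ?_ ha
  · rintro x ⟨m, hm, rfl⟩
    have h : ρ n * (ρ m - 1) = (ρ (n * m) - 1) - (ρ n - 1) := by
      rw [map_mul, mul_sub, mul_one]
      abel
    rw [h]
    exact Submodule.sub_mem _ (Submodule.subset_span ⟨n * m, N.mul_mem hn hm, rfl⟩)
      (Submodule.subset_span ⟨n, hn, rfl⟩)
  · simp
  · intro x y _ _ hx hy
    rw [mul_add]
    exact Submodule.add_mem _ hx hy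
  · intro c x _ hx
    rw [mul_smul_comm]
    exact Submodule.smul_mem _ c hx

/-- the fixed vectors of `N` in `U` -/
def fixN (ρ : K →* Module.End ℝ E) (N : Subgroup K) (U : Submodule ℝ E) : Submodule ℝ E where
  carrier := {v | v ∈ U ∧ ∀ n ∈ N, ρ n v = v}
  zero_mem' := ⟨U.zero_mem, fun n _ => map_zero _⟩
  add_mem' := fun {x y} hx hy => ⟨U.add_mem hx.1 hy.1, fun n hn => by
    rw [map_add, hx.2 n hn, hy.2 n hn]⟩
  smul_mem' := fun c x hx => ⟨U.smul_mem c hx.1, fun n hn => by
    rw [map_smul, hx.2 n hn]⟩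

end SIM

open SIM in
theorem t_SIM : S_RK → S_SIM := by
  intro hRK K E _ _ _ _ ρ N U hU hsim hT
  classical
  -- an operator of maximal rank
  let f : {a : Module.End ℝ E // a ∈ Aug ρ N} → ℕ := fun a =>
    finrank ℝ (LinearMap.range (a.1.restrict (augInv ρ N U hU a.1 a.2)))
  have hbdd : BddAbove (Set.range f) := by
    refine ⟨finrank ℝ U, ?_⟩
    rintro _ ⟨a, rfl⟩
    exact Submodule.finrank_le _
  have hne : (Set.range f).Nonempty := ⟨_, ⟨⟨0, Submodule.zero_mem _⟩, rfl⟩⟩
  obtain ⟨⟨a, ha⟩, hamax⟩ := Nat.sSup_mem hne hbdd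
  have hmax : ∀ b, f b ≤ f ⟨a, ha⟩ := by
    intro b
    rw [hamax]
    exact le_csSup hbdd ⟨b, rfl⟩
  refine ⟨a, ha, ?_⟩
  intro k hkU hk0
  rw [Submodule.mem_bot] at hk0 ⊢
  by_contra hk
  -- there are no fixed vectors
  have hfix : fixN ρ N U = ⊥ := by
    rcases hsim (fixN ρ N U) (fun v hv => hv.1) (fun n hn v hv => by
      rw [hv.2 n hn]
      exact hv) with h | h
    · exact h
    · exfalso
      apply hT
      intro n hn v hv
      rw [← h] at hv
      rw [hv.2 n hn, sub_self]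
      exact Submodule.zero_mem _
  obtain ⟨n, hn, hnk⟩ : ∃ n ∈ N, ρ n k ≠ k := by
    by_contra hcon
    push Not at hcon
    have : k ∈ fixN ρ N U := ⟨hkU, hcon⟩
    rw [hfix, Submodule.mem_bot] at this
    exact hk this
  -- the orbit of `k`
  let S : Submodule ℝ E := (Aug ρ N).map (LinearMap.applyₗ k)
  have hSU : S ≤ U := by
    rintro _ ⟨j, hj, rfl⟩
    exact augInv ρ N U hU j hj k hkU
  have hSinv : InvN ρ N S := by
    rintro m hm _ ⟨j, hj, rfl⟩
    exact ⟨ρ m * j, augMul ρ N m hm j hj, rfl⟩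
  have hSne : S ≠ ⊥ := by
    intro h
    have h1 : (ρ n - 1) k ∈ S := ⟨ρ n - 1, Submodule.subset_span ⟨n, hn, rfl⟩, rfl⟩
    rw [h, Submodule.mem_bot, LinearMap.sub_apply, Module.End.one_apply, sub_eq_zero] at h1
    exact hnk h1
  have hSeq : S = U := (hsim S hSU hSinv).resolve_left hSne
  -- the restriction of `a` is not surjective
  set A : Module.End ℝ U := a.restrict (augInv ρ N U hU a ha) with hA
  have hAk : A ⟨k, hkU⟩ = 0 := by
    apply Subtype.ext
    exact hk0
  have hnsurj : ¬ Function.Surjective A := by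
    intro hs
    have hi := LinearMap.injective_iff_surjective.mpr hs
    have h0 : (⟨k, hkU⟩ : U) = 0 := hi (by rw [hAk, map_zero])
    exact hk (congrArg Subtype.val h0)
  obtain ⟨u, hu⟩ : ∃ u : U, u ∉ LinearMap.range A := by
    by_contra hcon
    push Not at hcon
    exact hnsurj (fun u => hcon u)
  obtain ⟨j, hj, hjk⟩ : ∃ j ∈ Aug ρ N, j k = u.1 := by
    have h1 : u.1 ∈ S := by
      rw [hSeq]
      exact u.2
    obtain ⟨j, hj, hjk⟩ := h1
    exact ⟨j, hj, hjk⟩
  set B : Module.End ℝ U := j.restrict (augInv ρ N U hU j hj) with hB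
  have hBk : B ⟨k, hkU⟩ = u := Subtype.ext hjk
  obtain ⟨t, ht⟩ := hRK U A B ⟨k, hkU⟩ hAk (by rw [hBk]; exact hu)
  have hmem : a + t • j ∈ Aug ρ N := Submodule.add_mem _ ha (Submodule.smul_mem _ t hj)
  have h2 := hmax ⟨a + t • j, hmem⟩
  have h3 : (a + t • j).restrict (augInv ρ N U hU (a + t • j) hmem) = A + t • B := by
    ext v
    rfl
  have h4 : f ⟨a + t • j, hmem⟩ = finrank ℝ (LinearMap.range (A + t • B)) := by
    change finrank ℝ (LinearMap.range ((a + t • j).restrict _)) = _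
    rw [h3]
  have h5 : f ⟨a, ha⟩ = finrank ℝ (LinearMap.range A) := rfl
  rw [h4, h5] at h2
  exact absurd ht (not_lt.mpr h2)

end Pool.Agent.NH11.CH
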