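import Pool.Agent.NH11.CH.Stm

/-!
# SZ (helper79): an operator without kernel in the augmentation ideal of a normal subgroup
-/

set_option autoImplicit false

open Module

namespace Pool.Agent.NH11.CH

namespace SZ

variable {K E : Type} [Group K] [AddCommGroup E] [Module ℝ E]

theorem inv1 (ρ : K →* Module.End ℝ E) (k : K) (v : E) : ρ k (ρ k⁻¹ v) = v := by
  rw [← Module.End.mul_apply, ← map_mul, mul_inv_cancel, map_one]
  rfl

theorem inv2 (ρ : K →* Module.End ℝ E) (k : K) (v : E) : ρ k⁻¹ (ρ k v) = v := by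
  rw [← Module.End.mul_apply, ← map_mul, inv_mul_cancel, map_one]
  rfl

theorem conj (ρ : K →* Module.End ℝ E) (n k : K) (v : E) :
    ρ n (ρ k v) = ρ k (ρ (k⁻¹ * n * k) v) := by
  simp only [← Module.End.mul_apply, ← map_mul]
  congr 2
  group

theorem conj_mem {N : Subgroup K} (hN : N.Normal) {n : K} (hn : n ∈ N) (k : K) :
    k⁻¹ * n * k ∈ N := by
  have h := hN.conj_mem n hn k⁻¹
  rwa [inv_inv] at h

theorem aug_inv {ρ : K →* Module.End ℝ E} {N : Subgroup K} {V : Submodule ℝ E}
    (hV : InvN ρ N V) {a : Module.End ℝ E} (ha : a ∈ Aug ρ N) : ∀ v ∈ V, a v ∈ V := by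
  induction ha using Submodule.span_induction with
  | mem x hx =>
    obtain ⟨n, hn, rfl⟩ := hx
    intro v hv
    rw [LinearMap.sub_apply]
    exact V.sub_mem (hV n hn v hv) hv
  | zero => intro v _; rw [LinearMap.zero_apply]; exact V.zero_mem
  | add x y _ _ hx hy =>
    intro v hv
    rw [LinearMap.add_apply]
    exact V.add_mem (hx v hv) (hy v hv)
  | smul c x _ hx =>
    intro v hv
    rw [LinearMap.smul_apply]
    exact V.smul_mem c (hx v hv)

/-- the fixed vectors of `N` -/
def Fx (ρ : K →* Module.End ℝ E) (N : Subgroup K) : Submodule ℝ E where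
  carrier := {v | ∀ n ∈ N, ρ n v = v}
  add_mem' := by
    intro v w hv hw n hn
    rw [map_add, hv n hn, hw n hn]
  zero_mem' := by
    intro n _
    rw [map_zero]
  smul_mem' := by
    intro c v hv n hn
    rw [map_smul, hv n hn]

theorem Fx_inv {ρ : K →* Module.End ℝ E} {N : Subgroup K} (hN : N.Normal) : Inv ρ (Fx ρ N) := by
  intro k v hv n hn
  rw [conj, hv _ (conj_mem hN hn k)]

theorem Fx_bot {ρ : K →* Module.End ℝ E} {N : Subgroup K} (hN : N.Normal)
    (hirr : ∀ W : Submodule ℝ E, Inv ρ W → W = ⊥ ∨ W = ⊤) (hne : ∃ n ∈ N, ρ n ≠ 1) :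
    Fx ρ N = ⊥ := by
  rcases hirr _ (Fx_inv hN) with h | h
  · exact h
  · exfalso
    obtain ⟨n, hn, hne⟩ := hne
    apply hne
    ext v
    have h1 : v ∈ Fx ρ N := by rw [h]; trivial
    exact h1 n hn

theorem map_inv {ρ : K →* Module.End ℝ E} {N : Subgroup K} (hN : N.Normal) {S : Submodule ℝ E}
    (hS : InvN ρ N S) (k : K) : InvN ρ N (S.map (ρ k)) := by
  rintro n hn _ ⟨s, hs, rfl⟩
  rw [conj]
  exact Submodule.mem_map_of_mem (hS _ (conj_mem hN hn k) s hs)

theorem map_ne {ρ : K →* Module.End ℝ E} {S : Submodule ℝ E} (hS : S ≠ ⊥) (k : K) :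
    S.map (ρ k) ≠ ⊥ := by
  intro h
  apply hS
  rw [eq_bot_iff]
  intro s hs
  have h1 : ρ k s ∈ S.map (ρ k) := Submodule.mem_map_of_mem hs
  rw [h, Submodule.mem_bot] at h1
  rw [Submodule.mem_bot, ← inv2 ρ k s, h1, map_zero]

end SZ

open SZ in
theorem t_SZ (hSIM : S_SIM) (hGEN : S_GEN) : S_SZ := by
  intro K E _ _ _ _ ρ N hN hirr hne
  classical
  have hF : Fx ρ N = ⊥ := Fx_bot hN hirr hne
  -- a minimal invariant subspace
  have hEx : ∃ d : ℕ, ∃ S : Submodule ℝ E, InvN ρ N S ∧ S ≠ ⊥ ∧ finrank ℝ S = d := by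
    refine ⟨_, ⊤, fun _ _ _ _ => trivial, ?_, rfl⟩
    intro h
    obtain ⟨n, hn, hne⟩ := hne
    apply hne
    ext v
    have h1 : v ∈ (⊥ : Submodule ℝ E) := by rw [← h]; trivial
    rw [Submodule.mem_bot] at h1
    rw [h1, map_zero, map_zero]
  obtain ⟨S, hSN, hS0, hSd⟩ := Nat.find_spec hEx
  have hmin : ∀ U : Submodule ℝ E, InvN ρ N U → U ≠ ⊥ → finrank ℝ S ≤ finrank ℝ U := by
    intro U hU hU0
    rw [hSd]
    exact Nat.find_min' hEx ⟨U, hU, hU0, rfl⟩
  -- the operators for the conjugates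
  have hop : ∀ k : K, ∃ a ∈ Aug ρ N, P a ⊥ (S.map (ρ k)) := by
    intro k
    refine hSIM K E ρ N (S.map (ρ k)) (map_inv hN hSN k) ?_ ?_
    · intro U' hU' hinv
      by_cases h0 : U' = ⊥
      · exact Or.inl h0
      · right
        exact Submodule.eq_of_le_of_finrank_le hU'
          ((Submodule.finrank_map_le (ρ k) S).trans (hmin U' hinv h0))
    · intro ht
      apply map_ne (ρ := ρ) hS0 k
      rw [eq_bot_iff, ← hF]
      intro v hv n hn
      have h1 := ht n hn v hv
      rw [Submodule.mem_bot, sub_eq_zero] at h1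
      exact h1
  -- finitely many conjugates
  have hfin : ∀ t : Finset (Submodule ℝ E), (∀ U ∈ t, ∃ k, S.map (ρ k) = U) →
      ∃ a ∈ Aug ρ N, ∀ U ∈ t, P a ⊥ U := by
    intro t
    induction t using Finset.induction_on with
    | empty => intro _; exact ⟨0, Submodule.zero_mem _, fun U hU => absurd hU (Finset.notMem_empty U)⟩
    | insert U t hUt ih =>
      intro ht
      obtain ⟨a, ha, hat⟩ := ih fun U' hU' => ht U' (Finset.mem_insert_of_mem hU')
      obtain ⟨k, hk⟩ := ht U (Finset.mem_insert_self U t)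
      obtain ⟨b, hb, hbU⟩ := hop k
      rw [hk] at hbU
      have h1 : ∀ U' ∈ insert U t, {x : ℝ | ¬ P (a + x • b) ⊥ U'}.Finite := by
        intro U' hU'
        obtain ⟨k', hk'⟩ := ht U' hU'
        have hi : InvN ρ N U' := by rw [← hk']; exact map_inv hN hSN k'
        refine hGEN E a b ⊥ U' bot_le (aug_inv hi ha) ?_ (aug_inv hi hb) ?_ ?_
        · intro v hv
          rw [Submodule.mem_bot] at hv ⊢
          rw [hv, map_zero]
        · intro v hv
          rw [Submodule.mem_bot] at hv ⊢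
          rw [hv, map_zero]
        · rw [Finset.mem_insert] at hU'
          rcases hU' with rfl | hU'
          · exact Or.inr hbU
          · exact Or.inl (hat U' hU')
      have h2 : (⋃ U' ∈ insert U t, {x : ℝ | ¬ P (a + x • b) ⊥ U'}).Finite :=
        (Finset.finite_toSet (insert U t)).biUnion h1
      obtain ⟨x, hx⟩ := h2.exists_notMem
      refine ⟨a + x • b, Submodule.add_mem _ ha (Submodule.smul_mem _ x hb), fun U' hU' => ?_⟩
      by_contra hc
      exact hx (Set.mem_biUnion (x := U') hU' hc)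
  -- the sum of the conjugates
  have hI : Inv ρ (⨆ k : K, S.map (ρ k)) := by
    intro k v hv
    have h1 : (⨆ k : K, S.map (ρ k)).map (ρ k) ≤ ⨆ k : K, S.map (ρ k) := by
      rw [Submodule.map_iSup]
      refine iSup_le fun k' => ?_
      rw [← Submodule.map_comp]
      have h2 : (ρ k) ∘ₗ (ρ k') = ρ (k * k') := by rw [map_mul]; rfl
      rw [h2]
      exact le_iSup (fun k : K => S.map (ρ k)) (k * k')
    exact h1 (Submodule.mem_map_of_mem hv)
  have hsup : ⨆ k : K, S.map (ρ k) = ⊤ := by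
    rcases hirr _ hI with h | h
    · exfalso
      apply map_ne (ρ := ρ) hS0 1
      rw [eq_bot_iff, ← h]
      exact le_iSup (fun k : K => S.map (ρ k)) 1
    · exact h
  obtain ⟨t, ht, hts⟩ := CompleteLattice.WellFoundedGT.isSupFiniteCompact (Submodule ℝ E)
    (Set.range fun k : K => S.map (ρ k))
  obtain ⟨a, ha, hat⟩ := hfin t fun U hU => ht hU
  refine ⟨a, ha, ?_⟩
  have hrange : ∀ U ∈ t, U ≤ LinearMap.range a := by
    intro U hU
    obtain ⟨k, hk⟩ := ht hU
    have hi : InvN ρ N U := by rw [← hk]; exact map_inv hN hSN k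
    have h1 : Function.Injective (a.restrict (aug_inv hi ha)) := by
      rw [← LinearMap.ker_eq_bot, LinearMap.ker_eq_bot']
      rintro ⟨v, hv⟩ h2
      have h3 : a v = 0 := congrArg Subtype.val h2
      have h4 := hat U hU v hv (by rw [Submodule.mem_bot]; exact h3)
      rw [Submodule.mem_bot] at h4
      exact Subtype.ext h4
    have h2 := LinearMap.injective_iff_surjective.1 h1
    intro u hu
    obtain ⟨v, hv⟩ := h2 ⟨u, hu⟩
    exact ⟨v, congrArg Subtype.val hv⟩
  have htop : LinearMap.range a = ⊤ := by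
    rw [eq_top_iff, ← hsup, iSup, hts]
    exact Finset.sup_le hrange
  exact LinearMap.injective_iff_surjective.2 (LinearMap.range_eq_top.1 htop)

end Pool.Agent.NH11.CH
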