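import Pool.Agent.Y150.Ch.Line
import Pool.Agent.NH11.CH.RK
import Pool.Agent.NH11.CH.GEN
import Pool.Agent.NH11.CH.SIM
import Pool.Agent.NH11.CH.SZ
import Pool.Agent.NH11.CH.REL
import Pool.Agent.NH11.CH.CHN
import Pool.Agent.NH11.CH.AFF
import Pool.Agent.NH11.CH.SPL
import Pool.Agent.NH11.CH.MOD
import Pool.Agent.NH11.CH.KEY
import Pool.Agent.NH11.CH.D5

/-!
# Commuting normal subgroups of the holonomy of a closed affine manifold: the proofs

The theorem `core` is restated in `Pool.Agent.Results.MP_1fa9a4_gt.CommutingNormalSubgroups`; the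
theorems `general` and `irreducible` are corollaries.
-/

set_option autoImplicit false

open Set Filter Topology

namespace Pool.Agent.NH11.CH.Cor

/-- A closed affine manifold `Γ \ X` modelled on the vector space `E`: the group `Γ` acts on the
Hausdorff space `X` properly discontinuously and with compact quotient, and the developing map
`dev` is a local homeomorphism to `E` that is equivariant with respect to the affine holonomy
`hol`. -/
structure ClosedAffine (X Γ E : Type) [TopologicalSpace X] [Group Γ] [MulAction Γ X]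
    [NormedAddCommGroup E] [NormedSpace ℝ E] (dev : X → E) (hol : Γ →* (E ≃ᵃ[ℝ] E)) : Prop where
  /-- the developing map is a local homeomorphism -/
  loc : IsLocalHomeomorph dev
  /-- the group acts by homeomorphisms -/
  cont : ∀ γ : Γ, Continuous fun x : X => γ • x
  /-- the developing map is equivariant -/
  equi : ∀ (γ : Γ) (x : X), dev (γ • x) = hol γ (dev x)
  /-- the action is properly discontinuous -/
  pd : ∀ K : Set X, IsCompact K → {γ : Γ | ∃ x ∈ K, γ • x ∈ K}.Finite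
  /-- the quotient is compact -/
  cc : ∃ K : Set X, IsCompact K ∧ ∀ x : X, ∃ γ : Γ, ∃ k ∈ K, γ • k = x

variable {X Γ E : Type} [TopologicalSpace X] [Group Γ] [MulAction Γ X] [NormedAddCommGroup E]
  [NormedSpace ℝ E]

/-- The linear holonomy. -/
def lin (hol : Γ →* (E ≃ᵃ[ℝ] E)) (γ : Γ) : E →ₗ[ℝ] E := (hol γ).linear

/-- `N` is a normal subgroup of `K`. -/
def NormalIn (N K : Subgroup Γ) : Prop := N ≤ K ∧ ∀ γ ∈ K, ∀ n ∈ N, γ * n * γ⁻¹ ∈ N

/-- The elements of `N` commute with the elements of `C` as transformations of `H`. -/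
def CommuteOn (hol : Γ →* (E ≃ᵃ[ℝ] E)) (N C : Subgroup Γ) (H : Set E) : Prop :=
  ∀ n ∈ N, ∀ c ∈ C, ∀ q ∈ H, hol n (hol c q) = hol c (hol n q)

/-- The set `S` is invariant under `K`. -/
def Invariant (hol : Γ →* (E ≃ᵃ[ℝ] E)) (K : Subgroup Γ) (S : Set E) : Prop :=
  ∀ γ ∈ K, ∀ q ∈ S, hol γ q ∈ S

/-- No proper star-shaped subset of `H` is invariant under `K`. -/
def NoStar (hol : Γ →* (E ≃ᵃ[ℝ] E)) (K : Subgroup Γ) (H : Set E) : Prop :=
  ∀ (S : Set E) (p : E), p ∈ S → S ⊆ H → StarConvex ℝ p S → Invariant hol K S → S = H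

/-- The linear subspace `W` is invariant under `K`. -/
def LinInvariant (hol : Γ →* (E ≃ᵃ[ℝ] E)) (K : Subgroup Γ) (W : Submodule ℝ E) : Prop :=
  ∀ γ ∈ K, ∀ v ∈ W, lin hol γ v ∈ W

/-- `N` acts trivially on `H / W`: the elements of `N` move the points of `H` by vectors in `W`. -/
def TrivialMod (hol : Γ →* (E ≃ᵃ[ℝ] E)) (N : Subgroup Γ) (H : Set E) (W : Submodule ℝ E) : Prop :=
  ∀ n ∈ N, ∀ q ∈ H, hol n q - q ∈ W

/-- The linear holonomy of `N` is trivial on the factor `W'' / W'`. -/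
def TrivialFactor (hol : Γ →* (E ≃ᵃ[ℝ] E)) (N : Subgroup Γ) (W' W'' : Submodule ℝ E) : Prop :=
  ∀ n ∈ N, ∀ v ∈ W'', lin hol n v - v ∈ W'

/-- `W` is the smallest `K`-invariant subspace of `V` such that the linear holonomy of `N` is
nontrivial on all `K`-invariant factors of `V / W`: there is no trivial factor above `W`, but there
is one above every smaller invariant subspace. -/
structure Residue (hol : Γ →* (E ≃ᵃ[ℝ] E)) (K N : Subgroup Γ) (V W : Submodule ℝ E) : Prop where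
  le : W ≤ V
  inv : LinInvariant hol K W
  above : ∀ W' W'' : Submodule ℝ E, LinInvariant hol K W' → LinInvariant hol K W'' → W ≤ W' →
    W' < W'' → W'' ≤ V → ¬ TrivialFactor hol N W' W''
  below : ∀ U : Submodule ℝ E, LinInvariant hol K U → U < W → ∃ W' W'' : Submodule ℝ E,
    LinInvariant hol K W' ∧ LinInvariant hol K W'' ∧ U ≤ W' ∧ W' < W'' ∧ W'' ≤ V ∧
      TrivialFactor hol N W' W''

/-- The affine manifold `K \ dev⁻¹(H)`, where `H` is an affine subspace with the direction `V`,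
has a continuous vector field without zeros. For `H = E` this is a vector field without zeros on
the covering `K \ X` of `Γ \ X`. -/
def HasField (hol : Γ →* (E ≃ᵃ[ℝ] E)) (dev : X → E) (K : Subgroup Γ) (H : Set E)
    (V : Submodule ℝ E) : Prop :=
  ∃ Z : X → E, ContinuousOn Z {x | dev x ∈ H} ∧ (∀ x, dev x ∈ H → Z x ∈ V ∧ Z x ≠ 0) ∧
    ∀ γ ∈ K, ∀ x : X, dev x ∈ H → Z (γ • x) = lin hol γ (Z x)

/-- The linear holonomy of `K` has no one-dimensional factors on `V`. -/
def NoLine (hol : Γ →* (E ≃ᵃ[ℝ] E)) (K : Subgroup Γ) (V : Submodule ℝ E) : Prop :=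
  ∀ W W' : Submodule ℝ E, W ≤ W' → W' ≤ V → LinInvariant hol K W → LinInvariant hol K W' →
    Module.finrank ℝ W' ≠ Module.finrank ℝ W + 1

/-- Every element of `K` acts on `H` as the product of an element of `N` and an element of `C`. -/
def ProductOn (hol : Γ →* (E ≃ᵃ[ℝ] E)) (K N C : Subgroup Γ) (H : Set E) : Prop :=
  ∀ γ ∈ K, ∃ n ∈ N, ∃ c ∈ C, ∀ q ∈ H, hol γ q = hol n (hol c q)

/-- The `K`-invariant subspace `J` is maximal among the `K`-invariant proper subspaces of `I`. -/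
def MaximalIn (hol : Γ →* (E ≃ᵃ[ℝ] E)) (K : Subgroup Γ) (J I : Submodule ℝ E) : Prop :=
  LinInvariant hol K J ∧ J < I ∧
    ∀ J' : Submodule ℝ E, LinInvariant hol K J' → J ≤ J' → J' ≤ I → J' = J ∨ J' = I

/-- The property of two commuting normal subgroups `N` and `C` of `K` on `H`: the manifold
`H / (W_N ∩ W_C)` is the product of `H / W_N`, on which `C` is trivial, and `H / W_C`, on which `N`
is trivial; and if `K` acts as `N C` then both `N` and `C` are nontrivial on all the top factors of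
`W_N ∩ W_C`, and in dimensions up to five one of `W_N`, `W_C` and `W_N ∩ W_C` vanishes. -/
def Splitting (hol : Γ →* (E ≃ᵃ[ℝ] E)) (K : Subgroup Γ) (H : AffineSubspace ℝ E) : Prop :=
  ∀ N C : Subgroup Γ, NormalIn N K → NormalIn C K → CommuteOn hol N C H →
    ∃ WN WC : Submodule ℝ E, Residue hol K N H.direction WN ∧ Residue hol K C H.direction WC ∧
      WN ⊔ WC = H.direction ∧ TrivialMod hol C H WN ∧ TrivialMod hol N H WC ∧
      (ProductOn hol K N C H →
        (∀ J : Submodule ℝ E, MaximalIn hol K J (WN ⊓ WC) →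
          ¬ TrivialFactor hol N J (WN ⊓ WC) ∧ ¬ TrivialFactor hol C J (WN ⊓ WC)) ∧
        (Module.finrank ℝ H.direction ≤ 5 → WN = ⊥ ∨ WC = ⊥ ∨ WN ⊓ WC = ⊥))

theorem lin_of_eq {f g h : E ≃ᵃ[ℝ] E} {v q : E} (h1 : f (v +ᵥ q) = g (h (v +ᵥ q)))
    (h2 : f q = g (h q)) : f.linear v = g.linear (h.linear v) := by
  have e1 := f.map_vadd q v
  have e2 := h.map_vadd q v
  have e3 := g.map_vadd (h q) (h.linear v)
  rw [e2, e3, e1, h2] at h1
  exact vadd_right_cancel _ h1

theorem lin_comm_of_eq {f g : E ≃ᵃ[ℝ] E} {v q : E} (h1 : f (g (v +ᵥ q)) = g (f (v +ᵥ q)))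
    (h2 : f (g q) = g (f q)) : f.linear (g.linear v) = g.linear (f.linear v) := by
  have e1 := f.map_vadd q v
  have e2 := g.map_vadd q v
  have e3 := g.map_vadd (f q) (f.linear v)
  have e4 := f.map_vadd (g q) (g.linear v)
  rw [e1, e2, e3, e4, h2] at h1
  exact vadd_right_cancel _ h1

/-- the direction of an invariant affine subspace is invariant -/
theorem dir_inv {hol : Γ →* (E ≃ᵃ[ℝ] E)} {K : Subgroup Γ} {H : AffineSubspace ℝ E} {q : E}
    (hq : q ∈ H) (hK : Invariant hol K H) : LinInvariant hol K H.direction := by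
  intro γ hγ v hv
  have h1 := AffineSubspace.vsub_mem_direction
    (hK γ hγ _ (AffineSubspace.vadd_mem_of_mem_direction hv hq)) (hK γ hγ _ hq)
  rwa [AffineEquiv.map_vadd, vadd_vsub] at h1

theorem splitting {hol : Γ →* (E ≃ᵃ[ℝ] E)} [FiniteDimensional ℝ E] {K : Subgroup Γ}
    {H : AffineSubspace ℝ E} {q₀ : E} (hne : q₀ ∈ H) (hinv : ∀ γ ∈ K, ∀ q ∈ H, hol γ q ∈ H)
    (hstar : NoStar hol K H) (hline : NoLine hol K H.direction) : Splitting hol K H := by
  intro N C hN hC hcom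
  have hgen := Pool.Agent.NH11.CH.t_GEN
  have hrel := Pool.Agent.NH11.CH.t_REL (Pool.Agent.NH11.CH.t_SZ
    (Pool.Agent.NH11.CH.t_SIM Pool.Agent.NH11.CH.t_RK) hgen)
  have hspl := Pool.Agent.NH11.CH.t_SPL (Pool.Agent.NH11.CH.t_CHN hrel hgen)
    Pool.Agent.NH11.CH.t_AFF
  have hnor : ∀ M : Subgroup Γ, NormalIn M K → (M.subgroupOf K).Normal := by
    intro M hM
    refine ⟨fun n hn k => ?_⟩
    rw [Subgroup.mem_subgroupOf] at hn ⊢
    exact hM.2 k.1 k.2 n.1 hn
  obtain ⟨WN, WC, h1, h2, h3, h4, h5, h6, h7, h8, h9⟩ := hspl K E (hol.comp K.subtype) H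
    (N.subgroupOf K) (C.subgroupOf K) (hnor N hN) (hnor C hC) ⟨q₀, hne⟩
    (fun k q hq => hinv k.1 k.2 q hq)
    (fun S p hp hS hs hSi => hstar S p hp hS hs fun γ hγ q hq => hSi ⟨γ, hγ⟩ q hq)
    (fun n hn c hc q hq => hcom n.1 hn c.1 hc q hq)
  have hI : ∀ W : Submodule ℝ E, Pool.Agent.NH11.CH.Inv
      (Pool.Agent.NH11.CH.linr (hol.comp K.subtype)) W ↔ LinInvariant hol K W :=
    fun W => ⟨fun h γ hγ v hv => h ⟨γ, hγ⟩ v hv, fun h k v hv => h k.1 k.2 v hv⟩
  have hT : ∀ M : Subgroup Γ, NormalIn M K → ∀ W' W'' : Submodule ℝ E, Pool.Agent.NH11.CH.Triv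
      (Pool.Agent.NH11.CH.linr (hol.comp K.subtype)) (M.subgroupOf K) W' W'' ↔
      TrivialFactor hol M W' W'' :=
    fun M hM W' W'' => ⟨fun h n hn v hv => h ⟨n, hM.1 hn⟩ hn v hv, fun h n hn v hv => h n.1 hn v hv⟩
  have hle1 : WN ≤ H.direction := h3 ▸ le_sup_left
  have hle2 : WC ≤ H.direction := h3 ▸ le_sup_right
  have hva : ∀ v ∈ H.direction, v +ᵥ q₀ ∈ H := fun v hv =>
    AffineSubspace.vadd_mem_of_mem_direction hv hne
  refine ⟨WN, WC, ⟨hle1, (hI _).1 h1, fun W' W'' a b c d e f => h6 W' W'' ((hI _).2 a)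
    ((hI _).2 b) c e d ((hT N hN _ _).2 f), fun U a b => ?_⟩, ⟨hle2, (hI _).1 h2,
    fun W' W'' a b c d e f => h7 W' W'' ((hI _).2 a) ((hI _).2 b) c e d ((hT C hC _ _).2 f),
    fun U a b => ?_⟩, h3, fun c hc q hq => h4 ⟨c, hC.1 hc⟩ hc q hq,
    fun n hn q hq => h5 ⟨n, hN.1 hn⟩ hn q hq, fun hprod => ?_⟩
  · obtain ⟨W', W'', g1, g2, g3, g4, g5, g6⟩ := h8 U ((hI _).2 a) b
    exact ⟨W', W'', (hI _).1 g1, (hI _).1 g2, g3, g4, g5, (hT N hN _ _).1 g6⟩
  · obtain ⟨W', W'', g1, g2, g3, g4, g5, g6⟩ := h9 U ((hI _).2 a) b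
    exact ⟨W', W'', (hI _).1 g1, (hI _).1 g2, g3, g4, g5, (hT C hC _ _).1 g6⟩
  · have hlt : ∀ M : Subgroup Γ, NormalIn M K → ∀ W : Submodule ℝ E, TrivialMod hol M H W →
        Pool.Agent.NH11.CH.Triv (Pool.Agent.NH11.CH.linr (hol.comp K.subtype)) (M.subgroupOf K) W
          H.direction := by
      intro M hM W hMW m hm v hv
      have e1 := hMW m.1 hm _ (hva v hv)
      have e2 := hMW m.1 hm _ hne
      rw [AffineEquiv.map_vadd] at e1
      have e3 := W.sub_mem e1 e2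
      rw [vadd_eq_add, vadd_eq_add] at e3
      have e4 : (hol m.1).linear v + hol m.1 q₀ - (v + q₀) - (hol m.1 q₀ - q₀) =
          (hol m.1).linear v - v := by abel
      rw [e4] at e3
      exact e3
    have tN := hlt N hN WC fun n hn q hq => h5 ⟨n, hN.1 hn⟩ hn q hq
    have tC := hlt C hC WN fun c hc q hq => h4 ⟨c, hC.1 hc⟩ hc q hq
    have hlineI : ∀ W W' : Submodule ℝ E, W ≤ W' → W' ≤ H.direction →
        Pool.Agent.NH11.CH.Inv (Pool.Agent.NH11.CH.linr (hol.comp K.subtype)) W →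
        Pool.Agent.NH11.CH.Inv (Pool.Agent.NH11.CH.linr (hol.comp K.subtype)) W' →
        Module.finrank ℝ W' ≠ Module.finrank ℝ W + 1 :=
      fun W W' a b c d => hline W W' a b ((hI _).1 c) ((hI _).1 d)
    have rN : Pool.Agent.NH11.CH.Resid (Pool.Agent.NH11.CH.linr (hol.comp K.subtype))
        (N.subgroupOf K) H.direction WN := ⟨hle1, h1, fun W' W'' a b c d e => h6 W' W'' a b c e d, h8⟩
    have rC : Pool.Agent.NH11.CH.Resid (Pool.Agent.NH11.CH.linr (hol.comp K.subtype))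
        (C.subgroupOf K) H.direction WC := ⟨hle2, h2, fun W' W'' a b c d e => h7 W' W'' a b c e d, h9⟩
    have p : Pool.Agent.NH11.CH.PD (Pool.Agent.NH11.CH.linr (hol.comp K.subtype))
        (N.subgroupOf K) (C.subgroupOf K) H.direction WN WC := by
      refine ⟨hnor N hN, hnor C hC, (hI _).2 (dir_inv hne hinv), hlineI, fun k => ?_,
        fun n hn c hc v hv => ?_, rN, rC, h3, tN, tC⟩
      · obtain ⟨n, hn, c, hc, hnc⟩ := hprod k.1 k.2
        exact ⟨⟨n, hN.1 hn⟩, hn, ⟨c, hC.1 hc⟩, hc, fun v hv =>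
          lin_of_eq (hnc _ (hva v hv)) (hnc _ hne)⟩
      · exact lin_comm_of_eq (hcom n.1 hn c.1 hc _ (hva v hv)) (hcom n.1 hn c.1 hc _ hne)
    have q : Pool.Agent.NH11.CH.PD (Pool.Agent.NH11.CH.linr (hol.comp K.subtype))
        (C.subgroupOf K) (N.subgroupOf K) H.direction WC WN := by
      refine ⟨p.nC, p.nN, p.inv, p.line, fun k => ?_,
        fun c hc n hn v hv => (p.comm n hn c hc v hv).symm, rC, rN, by rw [sup_comm]; exact h3,
        tC, tN⟩
      obtain ⟨n, hn, c, hc, h⟩ := p.prod k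
      exact ⟨c, hc, n, hn, fun v hv => (h v hv).trans (p.comm n hn c hc v hv)⟩
    have hkey := Pool.Agent.NH11.CH.t_KEY hrel Pool.Agent.NH11.CH.t_MOD
    refine ⟨fun J hJ => ⟨fun hT' => ?_, fun hT' => ?_⟩,
      Pool.Agent.NH11.CH.t_D5 Pool.Agent.NH11.CH.t_MOD hkey K E _ _ _ _ _ _ p q⟩
    · refine hkey K E _ _ _ _ _ _ q J ((hI _).2 hJ.1) (by rw [inf_comm]; exact hJ.2.1)
        (fun J' a b c => ?_) ((hT N hN _ _).2 (by rw [inf_comm]; exact hT'))
      rw [inf_comm] at c ⊢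
      exact hJ.2.2 J' ((hI _).1 a) b c
    · exact hkey K E _ _ _ _ _ _ p J ((hI _).2 hJ.1) hJ.2.1
        (fun J' a b c => hJ.2.2 J' ((hI _).1 a) b c) ((hT C hC _ _).2 hT')

/-- a homomorphism which is trivial on a subgroup of finite index of `C` has a finite image -/
theorem finite_image {M : Type} [Monoid M] (F : Γ →* M) (C L : Subgroup Γ) (hL : L.FiniteIndex)
    (h : ∀ c ∈ C, c ∈ L → F c = 1) : (F '' (C : Set Γ)).Finite := by
  classical
  have : Finite (Γ ⧸ L) := Subgroup.finite_quotient_of_finiteIndex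
  choose! s hs using fun (y : M) (hy : y ∈ F '' (C : Set Γ)) => hy
  refine Set.Finite.of_injOn (f := fun y => (QuotientGroup.mk (s y) : Γ ⧸ L)) (t := Set.univ)
    (fun _ _ => mem_univ _) (fun y hy z hz hyz => ?_) Set.finite_univ
  have h1 : (s y)⁻¹ * s z ∈ L := QuotientGroup.eq.1 hyz
  have h2 : F ((s y)⁻¹ * s z) = 1 :=
    h _ (C.mul_mem (C.inv_mem (hs y hy).1) (hs z hz).1) h1
  have h3 : F (s y) * F ((s y)⁻¹ * s z) = F (s z) := by
    rw [← map_mul, mul_inv_cancel_left]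
  rw [h2, mul_one, (hs y hy).2, (hs z hz).2] at h3
  exact h3

theorem core [T2Space X] [ConnectedSpace X] [FiniteDimensional ℝ E] [Nontrivial E]
    {dev : X → E} {hol : Γ →* (E ≃ᵃ[ℝ] E)} (D : ClosedAffine X Γ E dev hol)
    (hno : ∀ K : Subgroup Γ, K.FiniteIndex → ¬ HasField hol dev K univ ⊤) :
    ∃ (G : Subgroup Γ) (H : AffineSubspace ℝ E), G.FiniteIndex ∧ Invariant hol G H ∧
      H.direction ≠ ⊥ ∧ (∃ x, dev x ∈ H) ∧ ∀ K ≤ G, K.FiniteIndex →
        ¬ HasField hol dev K H H.direction ∧ NoStar hol K H ∧ NoLine hol K H.direction ∧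
          Splitting hol K H := by
  have D' : Pool.Agent.W689.Ch.AffMfd X Γ E dev hol := ⟨D.loc, D.cont, D.equi, D.pd, D.cc⟩
  obtain ⟨G, H, x₀, m⟩ := Pool.Agent.Y150.Ch.exists_min D' (fun K hK ⟨Z, h1, h2, h3⟩ =>
    hno K hK ⟨Z, h1, fun x _ => ⟨trivial, (h2 x trivial).2⟩, fun γ hγ x _ => h3 ⟨γ, hγ⟩ x trivial⟩)
  refine ⟨G, H, m.fin, m.inv, m.dir, ⟨x₀, m.mem⟩, fun K hK hKf => ?_⟩
  have hstar : NoStar hol K H := m.star K hK hKf
  have hline : NoLine hol K H.direction := fun W W' a b c d =>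
    Pool.Agent.Y150.Ch.no_line D' m hK hKf a b c d
  exact ⟨fun ⟨Z, h1, h2, h3⟩ => m.fld K hK hKf ⟨Z, h1, h2, fun γ x hx => h3 γ.1 γ.2 x hx⟩, hstar,
    hline, splitting m.mem (fun γ hγ => m.inv γ (hK hγ)) hstar hline⟩

theorem normalIn_inf {M K L : Subgroup Γ} (hL : L ≤ K) (hM : NormalIn M K) :
    NormalIn (M ⊓ L) L := by
  refine ⟨inf_le_right, fun γ hγ n hn => ⟨hM.2 γ (hL hγ) n hn.1, ?_⟩⟩
  exact L.mul_mem (L.mul_mem hγ hn.2) (L.inv_mem hγ)

/-- **Corollary 1.** Commuting normal subgroups `N` and `C` such that, for all subgroups `L` of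
finite index, the linear holonomy of `N ⊓ L` is nontrivial on every `L`-invariant factor
`W'' / W'`, and `C ⊓ L` acts nontrivially on every `L`-invariant affine subspace of positive
dimension: some finite covering has a vector field without zeros. -/
theorem general [T2Space X] [ConnectedSpace X] [FiniteDimensional ℝ E] [Nontrivial E]
    {dev : X → E} {hol : Γ →* (E ≃ᵃ[ℝ] E)} (D : ClosedAffine X Γ E dev hol)
    {K N C : Subgroup Γ} (hK : K.FiniteIndex) (hN : NormalIn N K) (hC : NormalIn C K)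
    (hcom : CommuteOn hol N C univ)
    (hNf : ∀ L ≤ K, L.FiniteIndex → ∀ W' W'' : Submodule ℝ E, LinInvariant hol L W' →
      LinInvariant hol L W'' → W' < W'' → ¬ TrivialFactor hol (N ⊓ L) W' W'')
    (hCf : ∀ L ≤ K, L.FiniteIndex → ∀ H : AffineSubspace ℝ E, (H : Set E).Nonempty →
      Invariant hol L H → H.direction ≠ ⊥ → ¬ TrivialMod hol (C ⊓ L) H ⊥) :
    ∃ K' : Subgroup Γ, K'.FiniteIndex ∧ HasField hol dev K' univ ⊤ := by
  by_contra hno
  push Not at hno
  obtain ⟨G, H, hG, hinv, hdir, ⟨x₀, hx₀⟩, hcore⟩ := core D hno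
  have hKG : (K ⊓ G).FiniteIndex := inferInstance
  obtain ⟨-, -, -, hspl⟩ := hcore (K ⊓ G) inf_le_right hKG
  obtain ⟨WN, WC, rN, rC, -, tC, -⟩ := hspl (N ⊓ (K ⊓ G)) (C ⊓ (K ⊓ G))
    (normalIn_inf inf_le_left hN) (normalIn_inf inf_le_left hC)
    (fun n hn c hc q _ => hcom n hn.1 c hc.1 q trivial)
  rcases eq_or_ne WN ⊥ with h | h
  · subst h
    exact hCf (K ⊓ G) inf_le_left hKG H ⟨_, hx₀⟩ (fun γ hγ => hinv γ hγ.2) hdir tC
  · obtain ⟨W', W'', i1, i2, -, h1, -, h2⟩ := rN.below ⊥ (by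
      intro γ _ v hv
      rw [Submodule.mem_bot] at hv ⊢
      rw [hv, map_zero]) (bot_lt_iff_ne_bot.2 h)
    exact hNf (K ⊓ G) inf_le_left hKG W' W'' i1 i2 h1 h2

/-- **Corollary 2.** The case of a linear holonomy which is irreducible on all subgroups of finite
index. -/
theorem irreducible [T2Space X] [ConnectedSpace X] [FiniteDimensional ℝ E] [Nontrivial E]
    {dev : X → E} {hol : Γ →* (E ≃ᵃ[ℝ] E)} (D : ClosedAffine X Γ E dev hol)
    (hirr : ∀ K : Subgroup Γ, K.FiniteIndex → ∀ W : Submodule ℝ E, LinInvariant hol K W →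
        W = ⊥ ∨ W = ⊤) {K N C : Subgroup Γ} (hK : K.FiniteIndex) (hN : NormalIn N K)
    (hC : NormalIn C K) (hcom : CommuteOn hol N C univ) (hNi : (lin hol '' (N : Set Γ)).Infinite)
    (hCi : (hol '' (C : Set Γ)).Infinite) :
    ∃ K' : Subgroup Γ, K'.FiniteIndex ∧ HasField hol dev K' univ ⊤ := by
  refine general D hK hN hC hcom (fun L hLK hL W' W'' i1 i2 h1 h2 => ?_)
    (fun L hLK hL H hne hinv hdir tC => ?_)
  · -- then the linear part of `N` is trivial on a subgroup of finite index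
    have e1 : W' = ⊥ := (hirr L hL W' i1).resolve_right (fun h => by
      rw [h] at h1
      exact not_top_lt h1)
    have e2 : W'' = ⊤ := (hirr L hL W'' i2).resolve_left (fun h => by
      rw [h] at h1
      exact not_lt_bot h1)
    rw [e1, e2] at h2
    have h3 : lin hol '' (N : Set Γ) = Pool.Agent.NH11.CH.linr hol '' (N : Set Γ) := rfl
    rw [h3] at hNi
    refine hNi (finite_image (Pool.Agent.NH11.CH.linr hol) N L hL fun n hn hn' => ?_)
    ext v
    have h4 := h2 n ⟨hn, hn'⟩ v trivial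
    rw [Submodule.mem_bot, sub_eq_zero] at h4
    exact h4
  · -- then `C` acts trivially
    obtain ⟨q₀, hq₀⟩ := hne
    have htop : H.direction = ⊤ := (hirr L hL _ (dir_inv hq₀ hinv)).resolve_left hdir
    have hH : H = ⊤ := (AffineSubspace.direction_eq_top_iff_of_nonempty ⟨_, hq₀⟩).1 htop
    subst hH
    refine hCi (finite_image hol C L hL fun c hc hc' => ?_)
    ext q
    have h1 := tC c ⟨hc, hc'⟩ q (AffineSubspace.mem_top ℝ E q)
    rw [Submodule.mem_bot, sub_eq_zero] at h1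
    rw [h1]
    rfl

end Pool.Agent.NH11.CH.Cor
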