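import Pool.Agent.NH11.CH.Stm4
import Pool.Agent.NH11.CH.DIM

/-!
# Nilpotent normal subgroups: all irreducible factors are trivial (helper23)
-/

set_option autoImplicit false

open Module

namespace Pool.Agent.NH11.CH

namespace LIN

variable {K E : Type} [Group K] [AddCommGroup E] [Module ℝ E]

/-- nothing invariant strictly between -/
def Irr (ρ : K →* Module.End ℝ E) (A B : Submodule ℝ E) : Prop :=
  ∀ Y : Submodule ℝ E, Inv ρ Y → A ≤ Y → Y ≤ B → Y = A ∨ Y = B

/-- below an irreducible factor which is not trivial -/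
def Q (ρ : K →* Module.End ℝ E) (N : Subgroup K) (V : Submodule ℝ E) : Set (Submodule ℝ E) :=
  {U | Inv ρ U ∧ ∃ A B : Submodule ℝ E, Inv ρ A ∧ Inv ρ B ∧ U ≤ A ∧ A < B ∧ B ≤ V ∧ Irr ρ A B ∧
    ¬ Triv ρ N A B}

end LIN

theorem t_LCS : S_LCS := by
  intro K _ N hN
  have h1 : ∀ j, (lcs N j).Normal := by
    intro j
    induction j with
    | zero => exact hN
    | succ j ih =>
      have := ih
      exact Subgroup.commutator_normal (lcs N j) N
  refine ⟨h1, ?_, ?_⟩
  · intro j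
    cases j with
    | zero => exact le_rfl
    | succ j => exact Subgroup.commutator_le_right (lcs N j) N
  · intro j z hz n hn
    exact Subgroup.commutator_mem_commutator hz hn

open LIN in
theorem t_LIN : S_CEN → S_LIN := by
  intro hCEN K E _ _ _ _ ρ N V c hN hV hc hT W' W'' hW' hW'' hlt hle hirr
  by_contra hnt
  obtain ⟨U, ⟨hU, A, B, hA, hB, hUA, hAB, hBV, hAB2, hAB3⟩, hmax⟩ :=
    (wellFounded_gt (α := Submodule ℝ E)).has_min (Q ρ N V)
      ⟨W', hW', W', W'', hW', hW'', le_rfl, hlt, hle, hirr, hnt⟩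
  have hmax' : ∀ x ∈ Q ρ N V, ¬ U < x := hmax
  obtain rfl : U = A := by
    by_contra hne
    exact hmax' A ⟨hA, A, B, hA, hB, le_rfl, hAB, hBV, hAB2, hAB3⟩ (lt_of_le_of_ne hUA hne)
  have hUV : U < V := hAB.trans_le hBV
  -- `B` is not `V`
  have hBV2 : B < V := by
    refine lt_of_le_of_ne hBV ?_
    rintro rfl
    obtain ⟨A', A'', i1, i2, l1, l2, l3, t⟩ := hT U hU hUV
    have e1 : A' = U := (hAB2 A' i1 l1 (l2.le.trans l3)).resolve_right (fun h => by
      rw [h] at l2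
      exact absurd l3 (not_le_of_gt l2))
    have e2 : A'' = B := (hAB2 A'' i2 (l1.trans l2.le) l3).resolve_left (fun h => by
      rw [h, e1] at l2
      exact lt_irrefl _ l2)
    rw [e1, e2] at t
    exact hAB3 t
  -- the next factor
  obtain ⟨M, ⟨hM, hBM, hMV⟩, hmin⟩ := (wellFounded_lt (α := Submodule ℝ E)).has_min
    {M : Submodule ℝ E | Inv ρ M ∧ B < M ∧ M ≤ V} ⟨V, hV, hBV2, le_rfl⟩
  have hirrM : Irr ρ B M := by
    intro Y hY h1 h2
    by_cases h3 : Y = B
    · exact Or.inl h3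
    · right
      by_contra h4
      exact hmin Y ⟨hY, lt_of_le_of_ne h1 (Ne.symm h3), h2.trans hMV⟩ (lt_of_le_of_ne h2 h4)
  have htrM : Triv ρ N B M := by
    by_contra h1
    exact hmax' B ⟨hB, B, M, hB, hM, le_rfl, hBM, hMV, hirrM, h1⟩ hAB
  obtain ⟨T, hTi, hTS, hTM⟩ := hCEN K E ρ N U B M c hN hU hB hM hAB hBM hAB2 hAB3 htrM
    (fun z hz v hv => by
      have h1 := hc z hz v (hMV hv)
      rw [Submodule.mem_bot] at h1
      rw [h1]
      exact U.zero_mem)
  have hUT : U ≤ T := by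
    rw [← hTS]
    exact inf_le_left
  have hTM' : T ≤ M := by
    rw [← hTM]
    exact le_sup_left
  have hUT2 : U < T := by
    refine lt_of_le_of_ne hUT ?_
    rintro rfl
    rw [sup_eq_right.2 hAB.le] at hTM
    exact hBM.ne hTM
  refine hmax' T ⟨hTi, T, M, hTi, hM, le_rfl, ?_, hMV, ?_, ?_⟩ hUT2
  · refine lt_of_le_of_ne hTM' ?_
    rintro rfl
    rw [inf_eq_right.2 hBM.le] at hTS
    exact hAB.ne hTS.symm
  · intro Y hY h1 h2
    have h3 : U ≤ Y ⊓ B := by
      rw [← hTS]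
      exact inf_le_inf_right _ h1
    rcases hAB2 (Y ⊓ B) (DIM.inv_inf hY hB) h3 inf_le_right with h4 | h4
    · left
      have h5 : Y ⊓ (T ⊔ B) = T ⊔ Y ⊓ B := by
        rw [sup_comm T B, ← inf_sup_assoc_of_le B h1, sup_comm]
      rw [hTM, inf_eq_left.2 h2, h4, sup_eq_left.2 hUT] at h5
      exact h5
    · right
      refine le_antisymm h2 ?_
      rw [← hTM]
      exact sup_le h1 (inf_eq_right.1 h4)
  · intro h1
    apply hAB3
    intro n hn v hv
    rw [← hTS]
    exact ⟨h1 n hn v (hBM.le hv), sub_mem (hB n v hv) hv⟩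

end Pool.Agent.NH11.CH
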