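import Pool.Agent.NH69.CH.Fin
import Pool.Agent.NH11.CH.RK
import Pool.Agent.NH11.CH.GEN
import Pool.Agent.NH11.CH.SIM
import Pool.Agent.NH11.CH.SZ
import Pool.Agent.NH11.CH.REL
import Pool.Agent.NH11.CH.CEN
import Pool.Agent.NH11.CH.LIN

/-!
# Nilpotent normal subgroups of the holonomy of a closed affine manifold: the proofs

The theorem `main` is restated in `Pool.Agent.Results.MP_1fa9a4_gt.NilpotentNormalSubgroups`.
-/

set_option autoImplicit false

open Set Filter Topology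

namespace Pool.Agent.NH11.CH.Nil

/-- A closed affine manifold `Γ \ X` modelled on the vector space `E`: the group `Γ` acts on the
Hausdorff space `X` properly discontinuously and with compact quotient, and the developing map
`dev` is a local homeomorphism to `E` that is equivariant with respect to the affine holonomy
`hol`. -/
structure ClosedAffine (X Γ E : Type) [TopologicalSpace X] [Group Γ] [MulAction Γ X]
    [NormedAddCommGroup E] [NormedSpace ℝ E] (dev : X → E) (hol : Γ →* (E ≃ᵃ[ℝ] E)) : Prop where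
  /-- the developing map is a local homeomorphism -/
  loc : IsLocalHomeomorph dev
  /-- the group acts by homeomorphisms -/
  cont : ∀ γ : Γ, Continuous fun x : X => γ • x
  /-- the developing map is equivariant -/
  equi : ∀ (γ : Γ) (x : X), dev (γ • x) = hol γ (dev x)
  /-- the action is properly discontinuous -/
  pd : ∀ K : Set X, IsCompact K → {γ : Γ | ∃ x ∈ K, γ • x ∈ K}.Finite
  /-- the quotient is compact -/
  cc : ∃ K : Set X, IsCompact K ∧ ∀ x : X, ∃ γ : Γ, ∃ k ∈ K, γ • k = x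

variable {X Γ E : Type} [TopologicalSpace X] [Group Γ] [MulAction Γ X] [NormedAddCommGroup E]
  [NormedSpace ℝ E]

/-- The linear holonomy. -/
def lin (hol : Γ →* (E ≃ᵃ[ℝ] E)) (γ : Γ) : E →ₗ[ℝ] E := (hol γ).linear

/-- `N` is a normal subgroup of `K`. -/
def NormalIn (N K : Subgroup Γ) : Prop := N ≤ K ∧ ∀ γ ∈ K, ∀ n ∈ N, γ * n * γ⁻¹ ∈ N

/-- The set `S` is invariant under `K`. -/
def Invariant (hol : Γ →* (E ≃ᵃ[ℝ] E)) (K : Subgroup Γ) (S : Set E) : Prop :=
  ∀ γ ∈ K, ∀ q ∈ S, hol γ q ∈ S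

/-- No proper star-shaped subset of `H` is invariant under `K`. -/
def NoStar (hol : Γ →* (E ≃ᵃ[ℝ] E)) (K : Subgroup Γ) (H : Set E) : Prop :=
  ∀ (S : Set E) (p : E), p ∈ S → S ⊆ H → StarConvex ℝ p S → Invariant hol K S → S = H

/-- The linear subspace `W` is invariant under `K`. -/
def LinInvariant (hol : Γ →* (E ≃ᵃ[ℝ] E)) (K : Subgroup Γ) (W : Submodule ℝ E) : Prop :=
  ∀ γ ∈ K, ∀ v ∈ W, lin hol γ v ∈ W

/-- The linear holonomy of `N` is trivial on the factor `W'' / W'`. -/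
def TrivialFactor (hol : Γ →* (E ≃ᵃ[ℝ] E)) (N : Subgroup Γ) (W' W'' : Submodule ℝ E) : Prop :=
  ∀ n ∈ N, ∀ v ∈ W'', lin hol n v - v ∈ W'

/-- The affine manifold `K \ dev⁻¹(H)`, where `H` is an affine subspace with the direction `V`,
has a continuous vector field without zeros. For `H = E` this is a vector field without zeros on
the covering `K \ X` of `Γ \ X`. -/
def HasField (hol : Γ →* (E ≃ᵃ[ℝ] E)) (dev : X → E) (K : Subgroup Γ) (H : Set E)
    (V : Submodule ℝ E) : Prop :=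
  ∃ Z : X → E, ContinuousOn Z {x | dev x ∈ H} ∧ (∀ x, dev x ∈ H → Z x ∈ V ∧ Z x ≠ 0) ∧
    ∀ γ ∈ K, ∀ x : X, dev x ∈ H → Z (γ • x) = lin hol γ (Z x)

/-- The lower central series of the subgroup `N`. -/
def lowerCentral (N : Subgroup Γ) : ℕ → Subgroup Γ
  | 0 => N
  | j + 1 => ⁅lowerCentral N j, N⁆

/-- The transformations of `H` given by the elements of `N` form a nilpotent group: some term of the
lower central series of `N` acts trivially on `H`. -/
def NilpotentOn (hol : Γ →* (E ≃ᵃ[ℝ] E)) (N : Subgroup Γ) (H : Set E) : Prop :=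
  ∃ c : ℕ, ∀ z ∈ lowerCentral N c, ∀ q ∈ H, hol z q = q

/-- The linear holonomy of `N` is trivial on all the `K`-irreducible factors of `V`. -/
def UnipotentOn (hol : Γ →* (E ≃ᵃ[ℝ] E)) (K N : Subgroup Γ) (V : Submodule ℝ E) : Prop :=
  ∀ W' W'' : Submodule ℝ E, LinInvariant hol K W' → LinInvariant hol K W'' → W' < W'' → W'' ≤ V →
    (∀ Y : Submodule ℝ E, LinInvariant hol K Y → W' ≤ Y → Y ≤ W'' → Y = W' ∨ Y = W'') →
    TrivialFactor hol N W' W''

theorem lowerCentral_le (N : Subgroup Γ) (j : ℕ) : lowerCentral N j ≤ N := by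
  induction j with
  | zero => exact le_rfl
  | succ j ih =>
    rw [lowerCentral, Subgroup.commutator_le]
    intro a ha b hb
    have ha' := ih ha
    rw [commutatorElement_def]
    exact N.mul_mem (N.mul_mem (N.mul_mem ha' hb) (N.inv_mem ha')) (N.inv_mem hb)

theorem map_lcs {K N : Subgroup Γ} (j : ℕ) :
    (Pool.Agent.NH11.CH.lcs (N.subgroupOf K) j).map K.subtype ≤ lowerCentral N j := by
  have h0 : (N.subgroupOf K).map K.subtype ≤ N := by
    rintro _ ⟨x, hx, rfl⟩
    exact hx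
  induction j with
  | zero => exact h0
  | succ j ih =>
    rw [Pool.Agent.NH11.CH.lcs, lowerCentral, Subgroup.map_commutator]
    exact Subgroup.commutator_mono ih h0

/-- the direction of an invariant affine subspace is invariant -/
theorem dir_inv {hol : Γ →* (E ≃ᵃ[ℝ] E)} {K : Subgroup Γ} {H : AffineSubspace ℝ E} {q : E}
    (hq : q ∈ H) (hK : Invariant hol K H) : LinInvariant hol K H.direction := by
  intro γ hγ v hv
  have h1 := AffineSubspace.vsub_mem_direction
    (hK γ hγ _ (AffineSubspace.vadd_mem_of_mem_direction hv hq)) (hK γ hγ _ hq)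
  rwa [AffineEquiv.map_vadd, vadd_vsub] at h1

theorem exists_trivial {hol : Γ →* (E ≃ᵃ[ℝ] E)} [FiniteDimensional ℝ E] {K N : Subgroup Γ}
    {H : AffineSubspace ℝ E} {q₀ : E} (hne : q₀ ∈ H) (hinv : ∀ γ ∈ K, ∀ q ∈ H, hol γ q ∈ H)
    (hstar : NoStar hol K H) (hN : NormalIn N K) (hnil : NilpotentOn hol N H)
    {W : Submodule ℝ E} (hW : LinInvariant hol K W) (hWV : W < H.direction) :
    ∃ W' W'' : Submodule ℝ E, LinInvariant hol K W' ∧ LinInvariant hol K W'' ∧ W ≤ W' ∧
      W' < W'' ∧ W'' ≤ H.direction ∧ TrivialFactor hol N W' W'' := by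
  classical
  by_contra hnone
  have hnt : ∀ W₁ W₂ : Submodule ℝ E, W ≤ W₁ → W₁ < W₂ → W₂ ≤ H.direction →
      LinInvariant hol K W₁ → LinInvariant hol K W₂ → ∃ a ∈ N, ∃ v ∈ W₂, lin hol a v - v ∉ W₁ := by
    intro W₁ W₂ h1 h2 h3 h4 h5
    by_contra hc
    push Not at hc
    exact hnone ⟨W₁, W₂, h4, h5, h1, h2, h3, hc⟩
  have haff : ∀ S : Set E, S.Nonempty → S ⊆ H →
      (∀ x ∈ S, ∀ y ∈ S, ∀ s t : ℝ, s + t = 1 → s • x + t • y ∈ S) →
      (∀ γ ∈ K, ∀ q ∈ S, hol γ q ∈ S) → S = H := fun S ⟨p, hp⟩ h1 h2 h3 =>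
    hstar S p hp h1 (fun q hq s t _ _ hst => h2 p hp q hq s t hst) h3
  have hP : ∃ c, ∀ z ∈ lowerCentral N c, ∀ q ∈ H, hol z q - q ∈ W := by
    obtain ⟨c, hc⟩ := hnil
    refine ⟨c, fun z hz q hq => ?_⟩
    rw [hc z hz q hq, sub_self]
    exact W.zero_mem
  obtain ⟨j, hj⟩ : ∃ j, j = Nat.find hP := ⟨_, rfl⟩
  have hPj := Nat.find_spec hP
  rw [← hj] at hPj
  cases j with
  | zero =>
    obtain ⟨a, ha, v, hv, hav⟩ := hnt W H.direction le_rfl hWV le_rfl hW (dir_inv hne hinv)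
    refine hav ?_
    have e1 := hPj a ha _ (AffineSubspace.vadd_mem_of_mem_direction hv hne)
    have e2 := hPj a ha _ hne
    rw [AffineEquiv.map_vadd] at e1
    have e3 := W.sub_mem e1 e2
    rw [vadd_eq_add, vadd_eq_add] at e3
    have e4 : (hol a).linear v + hol a q₀ - (v + q₀) - (hol a q₀ - q₀) =
        (hol a).linear v - v := by abel
    rw [e4] at e3
    exact e3
  | succ i =>
    refine Nat.find_min hP (m := i) (by omega) fun z hz q hq => ?_
    have hzN : z ∈ N := lowerCentral_le N i hz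
    have hzK : z ∈ K := hN.1 hzN
    refine Pool.Agent.NH69.CH.only_id (Pool.Agent.NH69.CH.afam_normal hN.1
      (fun γ hγ a ha => ⟨γ * a * γ⁻¹, hN.2 γ hγ a ha, fun q _ => rfl⟩)) hne hinv haff hWV.le hW
      (fun W₁ W₂ k1 k2 k3 k4 k5 L hL => by
        rw [Set.mem_singleton_iff] at hL
        subst hL
        exact hnt W₁ W₂ k1 k2 k3 k4 k5) N rfl ((hol z : E ≃ᵃ[ℝ] E) : E →ᵃ[ℝ] E)
      ⟨hinv z hzK, hW z hzK, fun a ha y hy => ?_⟩ q hq
    have hca : z * a * z⁻¹ * a⁻¹ ∈ lowerCentral N (i + 1) :=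
      Subgroup.commutator_mem_commutator hz ha
    have h1 := hPj _ hca (hol a (hol z y)) (hinv a (hN.1 ha) _ (hinv z hzK y hy))
    have h2 : hol (z * a * z⁻¹ * a⁻¹) (hol a (hol z y)) = hol z (hol a y) := by
      have h4 : ∀ g h : Γ, ∀ x : E, hol g (hol h x) = hol (g * h) x := by
        intro g h x
        rw [map_mul]
        rfl
      rw [h4, h4, h4]
      congr 2
      group
    rw [h2] at h1
    exact h1

theorem unipotent {hol : Γ →* (E ≃ᵃ[ℝ] E)} [FiniteDimensional ℝ E] {K N : Subgroup Γ}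
    {H : AffineSubspace ℝ E} {q₀ : E} (hne : q₀ ∈ H) (hinv : ∀ γ ∈ K, ∀ q ∈ H, hol γ q ∈ H)
    (hstar : NoStar hol K H) (hN : NormalIn N K) (hnil : NilpotentOn hol N H) :
    UnipotentOn hol K N H.direction := by
  have hrel := Pool.Agent.NH11.CH.t_REL (Pool.Agent.NH11.CH.t_SZ
    (Pool.Agent.NH11.CH.t_SIM Pool.Agent.NH11.CH.t_RK) Pool.Agent.NH11.CH.t_GEN)
  have hlin := Pool.Agent.NH11.CH.t_LIN
    (Pool.Agent.NH11.CH.t_CEN Pool.Agent.NH11.CH.t_LCS hrel)
  have hI : ∀ W : Submodule ℝ E, Pool.Agent.NH11.CH.Inv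
      (Pool.Agent.NH11.CH.linr (hol.comp K.subtype)) W ↔ LinInvariant hol K W :=
    fun W => ⟨fun h γ hγ v hv => h ⟨γ, hγ⟩ v hv, fun h k v hv => h k.1 k.2 v hv⟩
  have hT : ∀ W' W'' : Submodule ℝ E, Pool.Agent.NH11.CH.Triv
      (Pool.Agent.NH11.CH.linr (hol.comp K.subtype)) (N.subgroupOf K) W' W'' ↔
      TrivialFactor hol N W' W'' :=
    fun W' W'' => ⟨fun h n hn v hv => h ⟨n, hN.1 hn⟩ hn v hv, fun h n hn v hv => h n.1 hn v hv⟩
  have hnor : (N.subgroupOf K).Normal := by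
    refine ⟨fun n hn k => ?_⟩
    rw [Subgroup.mem_subgroupOf] at hn ⊢
    exact hN.2 k.1 k.2 n.1 hn
  obtain ⟨c, hc⟩ := hnil
  have hc' : Pool.Agent.NH11.CH.Triv (Pool.Agent.NH11.CH.linr (hol.comp K.subtype))
      (Pool.Agent.NH11.CH.lcs (N.subgroupOf K) c) ⊥ H.direction := by
    intro z hz v hv
    have hz' : z.1 ∈ lowerCentral N c := map_lcs c ⟨z, hz, rfl⟩
    have e1 := hc z.1 hz' _ (AffineSubspace.vadd_mem_of_mem_direction hv hne)
    have e2 := hc z.1 hz' _ hne
    rw [AffineEquiv.map_vadd, e2] at e1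
    have e3 : (hol z.1).linear v = v := vadd_right_cancel _ e1
    rw [Submodule.mem_bot, sub_eq_zero]
    exact e3
  intro W' W'' a b h1 h2 h3
  refine (hT W' W'').1 (hlin K E _ (N.subgroupOf K) H.direction c hnor
    ((hI _).2 (dir_inv hne hinv)) hc' (fun W hW hWV => ?_) W' W'' ((hI _).2 a) ((hI _).2 b) h1 h2
    fun Y hY k1 k2 => h3 Y ((hI _).1 hY) k1 k2)
  obtain ⟨A, B, g1, g2, g3, g4, g5, g6⟩ :=
    exists_trivial hne hinv hstar hN ⟨c, hc⟩ ((hI _).1 hW) hWV
  exact ⟨A, B, (hI _).2 g1, (hI _).2 g2, g3, g4, g5, (hT _ _).2 g6⟩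

/-- **Theorem.** Let `Γ \ X` be a closed affine manifold of positive dimension, with `X` connected,
such that no finite covering of it has a vector field without zeros (this is the case if its Euler
characteristic is not zero). Then there are a subgroup `G` of finite index and a `G`-invariant
affine subspace `H` of positive dimension, which meets the developing image, such that for all
subgroups `K` of finite index in `G` the covering `K \ dev⁻¹(H)` has no tangent field without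
zeros, there is no proper `K`-invariant star-shaped subset of `H`, and the normal subgroups of `K`
which act on `H` as nilpotent groups are unipotent. -/
theorem main [T2Space X] [ConnectedSpace X] [FiniteDimensional ℝ E] [Nontrivial E]
    {dev : X → E} {hol : Γ →* (E ≃ᵃ[ℝ] E)} (D : ClosedAffine X Γ E dev hol)
    (hno : ∀ K : Subgroup Γ, K.FiniteIndex → ¬ HasField hol dev K univ ⊤) :
    ∃ (G : Subgroup Γ) (H : AffineSubspace ℝ E), G.FiniteIndex ∧ Invariant hol G H ∧
      H.direction ≠ ⊥ ∧ (∃ x, dev x ∈ H) ∧ ∀ K ≤ G, K.FiniteIndex →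
        ¬ HasField hol dev K H H.direction ∧ NoStar hol K H ∧
          ∀ N : Subgroup Γ, NormalIn N K → NilpotentOn hol N H →
            UnipotentOn hol K N H.direction := by
  have D' : Pool.Agent.W689.Ch.AffMfd X Γ E dev hol := ⟨D.loc, D.cont, D.equi, D.pd, D.cc⟩
  obtain ⟨G, H, x₀, m⟩ := Pool.Agent.Y150.Ch.exists_min D' (fun K hK ⟨Z, h1, h2, h3⟩ =>
    hno K hK ⟨Z, h1, fun x _ => ⟨trivial, (h2 x trivial).2⟩, fun γ hγ x _ => h3 ⟨γ, hγ⟩ x trivial⟩)
  refine ⟨G, H, m.fin, m.inv, m.dir, ⟨x₀, m.mem⟩, fun K hK hKf => ?_⟩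
  have hstar : NoStar hol K H := m.star K hK hKf
  exact ⟨fun ⟨Z, h1, h2, h3⟩ => m.fld K hK hKf ⟨Z, h1, h2, fun γ x hx => h3 γ.1 γ.2 x hx⟩, hstar,
    fun N hN hnil => unipotent m.mem (fun γ hγ => m.inv γ (hK hγ)) hstar hN hnil⟩

end Pool.Agent.NH11.CH.Nil
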