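import Mathlib

/-!
# Commuting normal subgroups of affine groups: statements
-/

set_option autoImplicit false

open Module

namespace Pool.Agent.NH11.CH

section linear

variable {K E : Type} [Group K] [AddCommGroup E] [Module ℝ E]

/-- the span of the operators `ρ n - 1`, `n ∈ N` -/
def Aug (ρ : K →* Module.End ℝ E) (N : Subgroup K) : Submodule ℝ (Module.End ℝ E) :=
  Submodule.span ℝ {a | ∃ n ∈ N, a = ρ n - 1}

/-- `W` is invariant under `K` -/
def Inv (ρ : K →* Module.End ℝ E) (W : Submodule ℝ E) : Prop := ∀ k, ∀ v ∈ W, ρ k v ∈ W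

/-- `W` is invariant under `N` -/
def InvN (ρ : K →* Module.End ℝ E) (N : Subgroup K) (W : Submodule ℝ E) : Prop :=
  ∀ n ∈ N, ∀ v ∈ W, ρ n v ∈ W

/-- `a` is injective on `V / W` -/
def P (a : Module.End ℝ E) (W V : Submodule ℝ E) : Prop := ∀ v ∈ V, a v ∈ W → v ∈ W

/-- `N` acts trivially on `V / W` -/
def Triv (ρ : K →* Module.End ℝ E) (N : Subgroup K) (W V : Submodule ℝ E) : Prop :=
  ∀ n ∈ N, ∀ v ∈ V, ρ n v - v ∈ W

end linear

/-- RK: the rank increases -/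
def S_RK : Prop := ∀ (U : Type) [AddCommGroup U] [Module ℝ U] [FiniteDimensional ℝ U]
  (A B : Module.End ℝ U) (k : U), A k = 0 → B k ∉ LinearMap.range A →
  ∃ t : ℝ, finrank ℝ (LinearMap.range A) < finrank ℝ (LinearMap.range (A + t • B))

/-- GEN: `P` is a generic property -/
def S_GEN : Prop := ∀ (E : Type) [AddCommGroup E] [Module ℝ E] [FiniteDimensional ℝ E]
  (a b : Module.End ℝ E) (W V : Submodule ℝ E), W ≤ V → (∀ v ∈ V, a v ∈ V) → (∀ v ∈ W, a v ∈ W) →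
  (∀ v ∈ V, b v ∈ V) → (∀ v ∈ W, b v ∈ W) → (P a W V ∨ P b W V) →
  {t : ℝ | ¬ P (a + t • b) W V}.Finite

/-- SIM: the case of a simple `N`-module `U` -/
def S_SIM : Prop := ∀ (K E : Type) [Group K] [AddCommGroup E] [Module ℝ E] [FiniteDimensional ℝ E]
  (ρ : K →* Module.End ℝ E) (N : Subgroup K) (U : Submodule ℝ E), InvN ρ N U →
  (∀ U' : Submodule ℝ E, U' ≤ U → InvN ρ N U' → U' = ⊥ ∨ U' = U) → ¬ Triv ρ N ⊥ U →
  ∃ a ∈ Aug ρ N, P a ⊥ U

/-- SZ: the case of an irreducible representation of `K` -/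
def S_SZ : Prop := ∀ (K E : Type) [Group K] [AddCommGroup E] [Module ℝ E] [FiniteDimensional ℝ E]
  (ρ : K →* Module.End ℝ E) (N : Subgroup K), N.Normal →
  (∀ W : Submodule ℝ E, Inv ρ W → W = ⊥ ∨ W = ⊤) → (∃ n ∈ N, ρ n ≠ 1) →
  ∃ a ∈ Aug ρ N, Function.Injective a

/-- REL: the case of an irreducible factor -/
def S_REL : Prop := ∀ (K E : Type) [Group K] [AddCommGroup E] [Module ℝ E] [FiniteDimensional ℝ E]
  (ρ : K →* Module.End ℝ E) (N : Subgroup K) (W V : Submodule ℝ E), N.Normal →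
  Inv ρ W → Inv ρ V → W < V →
  (∀ W' : Submodule ℝ E, Inv ρ W' → W ≤ W' → W' ≤ V → W' = W ∨ W' = V) → ¬ Triv ρ N W V →
  ∃ a ∈ Aug ρ N, P a W V

/-- CHN: the general case -/
def S_CHN : Prop := ∀ (K E : Type) [Group K] [AddCommGroup E] [Module ℝ E] [FiniteDimensional ℝ E]
  (ρ : K →* Module.End ℝ E) (N : Subgroup K) (W V : Submodule ℝ E), N.Normal →
  Inv ρ W → Inv ρ V → W ≤ V →
  (∃ a ∈ Aug ρ N, P a W V) ∨ ∃ W' W'' : Submodule ℝ E, Inv ρ W' ∧ Inv ρ W'' ∧ W ≤ W' ∧ W' < W'' ∧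
    W'' ≤ V ∧ Triv ρ N W' W''

section affine

variable {K E : Type} [Group K] [NormedAddCommGroup E] [NormedSpace ℝ E]

/-- the linear part of an affine action -/
def linr (g : K →* (E ≃ᵃ[ℝ] E)) : K →* Module.End ℝ E where
  toFun k := ((g k).linear : E →ₗ[ℝ] E)
  map_one' := by
    rw [map_one]
    rfl
  map_mul' a b := by
    rw [map_mul]
    rfl

/-- there is no proper nonempty invariant star-shaped subset -/
def NoStar (g : K →* (E ≃ᵃ[ℝ] E)) (H : AffineSubspace ℝ E) : Prop :=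
  ∀ (S : Set E) (p : E), p ∈ S → S ⊆ H → StarConvex ℝ p S → (∀ k, ∀ q ∈ S, g k q ∈ S) → S = H

/-- `C` acts trivially on `H / W` -/
def TrivH (g : K →* (E ≃ᵃ[ℝ] E)) (C : Subgroup K) (H : AffineSubspace ℝ E) (W : Submodule ℝ E) :
    Prop := ∀ c ∈ C, ∀ q ∈ H, g c q - q ∈ W

/-- `N` and `C` commute on `H` -/
def Com (g : K →* (E ≃ᵃ[ℝ] E)) (N C : Subgroup K) (H : AffineSubspace ℝ E) : Prop :=
  ∀ n ∈ N, ∀ c ∈ C, ∀ q ∈ H, g n (g c q) = g c (g n q)

end affine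

/-- AFF: if `N` has an operator without kernel on `V / W` then `C` acts trivially on `H / W` -/
def S_AFF : Prop := ∀ (K E : Type) [Group K] [NormedAddCommGroup E] [NormedSpace ℝ E]
  [FiniteDimensional ℝ E] (g : K →* (E ≃ᵃ[ℝ] E)) (H : AffineSubspace ℝ E) (N C : Subgroup K)
  (W : Submodule ℝ E) (a : Module.End ℝ E), C.Normal → (H : Set E).Nonempty →
  (∀ k, ∀ q ∈ H, g k q ∈ H) → NoStar g H → Com g N C H → Inv (linr g) W → W ≤ H.direction →
  a ∈ Aug (linr g) N → P a W H.direction → TrivH g C H W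

/-- SPL: two commuting normal subgroups -/
def S_SPL : Prop := ∀ (K E : Type) [Group K] [NormedAddCommGroup E] [NormedSpace ℝ E]
  [FiniteDimensional ℝ E] (g : K →* (E ≃ᵃ[ℝ] E)) (H : AffineSubspace ℝ E) (N C : Subgroup K),
  N.Normal → C.Normal → (H : Set E).Nonempty → (∀ k, ∀ q ∈ H, g k q ∈ H) → NoStar g H →
  Com g N C H →
  -- there are the smallest invariant subspaces such that there are no trivial factors above them
  ∃ WN WC : Submodule ℝ E, Inv (linr g) WN ∧ Inv (linr g) WC ∧ WN ⊔ WC = H.direction ∧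
    TrivH g C H WN ∧ TrivH g N H WC ∧
    (∀ W' W'' : Submodule ℝ E, Inv (linr g) W' → Inv (linr g) W'' → WN ≤ W' → W'' ≤ H.direction →
      W' < W'' → ¬ Triv (linr g) N W' W'') ∧
    (∀ W' W'' : Submodule ℝ E, Inv (linr g) W' → Inv (linr g) W'' → WC ≤ W' → W'' ≤ H.direction →
      W' < W'' → ¬ Triv (linr g) C W' W'') ∧
    (∀ W : Submodule ℝ E, Inv (linr g) W → W < WN → ∃ W' W'' : Submodule ℝ E, Inv (linr g) W' ∧
      Inv (linr g) W'' ∧ W ≤ W' ∧ W' < W'' ∧ W'' ≤ H.direction ∧ Triv (linr g) N W' W'') ∧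
    (∀ W : Submodule ℝ E, Inv (linr g) W → W < WC → ∃ W' W'' : Submodule ℝ E, Inv (linr g) W' ∧
      Inv (linr g) W'' ∧ W ≤ W' ∧ W' < W'' ∧ W'' ≤ H.direction ∧ Triv (linr g) C W' W'')

end Pool.Agent.NH11.CH
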