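import Pool.Agent.NH11.CH.Stm

/-!
# Commuting normal subgroups of affine groups: statements, dimension four
-/

set_option autoImplicit false

open Module

namespace Pool.Agent.NH11.CH

/-- `W` is the smallest invariant subspace of `V` without `N`-trivial factors above it -/
structure Resid {K E : Type} [Group K] [AddCommGroup E] [Module ℝ E] (ρ : K →* Module.End ℝ E)
    (N : Subgroup K) (V W : Submodule ℝ E) : Prop where
  le : W ≤ V
  inv : Inv ρ W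
  above : ∀ W' W'' : Submodule ℝ E, Inv ρ W' → Inv ρ W'' → W ≤ W' → W' < W'' → W'' ≤ V →
    ¬ Triv ρ N W' W''
  below : ∀ U : Submodule ℝ E, Inv ρ U → U < W → ∃ W' W'' : Submodule ℝ E, Inv ρ W' ∧ Inv ρ W'' ∧
    U ≤ W' ∧ W' < W'' ∧ W'' ≤ V ∧ Triv ρ N W' W''

/-- DIM: dimension four, without one-dimensional factors, for `K = N C` -/
def S_DIM : Prop := ∀ (K E : Type) [Group K] [AddCommGroup E] [Module ℝ E]
  [FiniteDimensional ℝ E] (ρ : K →* Module.End ℝ E) (N C : Subgroup K) (V WN WC : Submodule ℝ E),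
  N.Normal → C.Normal → finrank ℝ V = 4 → Inv ρ V →
  (∀ W W' : Submodule ℝ E, W ≤ W' → W' ≤ V → Inv ρ W → Inv ρ W' →
    finrank ℝ W' ≠ finrank ℝ W + 1) →
  (∀ k, ∃ n ∈ N, ∃ c ∈ C, ∀ v ∈ V, ρ k v = ρ n (ρ c v)) →
  (∀ n ∈ N, ∀ c ∈ C, ∀ v ∈ V, ρ n (ρ c v) = ρ c (ρ n v)) →
  Resid ρ N V WN → Resid ρ C V WC → WN ⊔ WC = V →
  WN = ⊥ ∨ WC = ⊥ ∨ (finrank ℝ WN = 2 ∧ finrank ℝ WC = 2 ∧ WN ⊓ WC = ⊥)

end Pool.Agent.NH11.CH
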