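import Pool.Agent.NH11.CH.Stm2

/-!
# Commuting normal subgroups of affine groups: statements, products
-/

set_option autoImplicit false

open Module

namespace Pool.Agent.NH11.CH

/-- `K` acts on `V` as the product of the commuting normal subgroups `N` and `C` -/
structure PD {K E : Type} [Group K] [AddCommGroup E] [Module ℝ E] (ρ : K →* Module.End ℝ E)
    (N C : Subgroup K) (V WN WC : Submodule ℝ E) : Prop where
  nN : N.Normal
  nC : C.Normal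
  inv : Inv ρ V
  line : ∀ W W' : Submodule ℝ E, W ≤ W' → W' ≤ V → Inv ρ W → Inv ρ W' →
    finrank ℝ W' ≠ finrank ℝ W + 1
  prod : ∀ k, ∃ n ∈ N, ∃ c ∈ C, ∀ v ∈ V, ρ k v = ρ n (ρ c v)
  comm : ∀ n ∈ N, ∀ c ∈ C, ∀ v ∈ V, ρ n (ρ c v) = ρ c (ρ n v)
  rN : Resid ρ N V WN
  rC : Resid ρ C V WC
  sup : WN ⊔ WC = V
  tN : Triv ρ N WC V
  tC : Triv ρ C WN V

/-- MOD: below the residue the trivial factors can be found inside the residue -/
def S_MOD : Prop := ∀ (K E : Type) [Group K] [AddCommGroup E] [Module ℝ E]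
  (ρ : K →* Module.End ℝ E) (N : Subgroup K) (V W U : Submodule ℝ E), Resid ρ N V W →
  Inv ρ U → U < W → ∃ W' W'' : Submodule ℝ E, Inv ρ W' ∧ Inv ρ W'' ∧ U ≤ W' ∧ W' < W'' ∧ W'' ≤ W ∧
    Triv ρ N W' W''

/-- KEY: `C` is nontrivial on the top factors of `WN ⊓ WC` -/
def S_KEY : Prop := ∀ (K E : Type) [Group K] [AddCommGroup E] [Module ℝ E]
  [FiniteDimensional ℝ E] (ρ : K →* Module.End ℝ E) (N C : Subgroup K) (V WN WC : Submodule ℝ E),
  PD ρ N C V WN WC → ∀ J : Submodule ℝ E, Inv ρ J → J < WN ⊓ WC →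
  (∀ J' : Submodule ℝ E, Inv ρ J' → J ≤ J' → J' ≤ WN ⊓ WC → J' = J ∨ J' = WN ⊓ WC) →
  ¬ Triv ρ C J (WN ⊓ WC)

/-- D5: dimension at most five -/
def S_D5 : Prop := ∀ (K E : Type) [Group K] [AddCommGroup E] [Module ℝ E]
  [FiniteDimensional ℝ E] (ρ : K →* Module.End ℝ E) (N C : Subgroup K) (V WN WC : Submodule ℝ E),
  PD ρ N C V WN WC → PD ρ C N V WC WN → finrank ℝ V ≤ 5 → WN = ⊥ ∨ WC = ⊥ ∨ WN ⊓ WC = ⊥

end Pool.Agent.NH11.CH
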