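import Pool.Agent.NH11.CH.Stm2

/-!
# Nilpotent normal subgroups of affine groups: statements
-/

set_option autoImplicit false

open Module

namespace Pool.Agent.NH11.CH

/-- the lower central series of the subgroup `N` -/
def lcs {K : Type} [Group K] (N : Subgroup K) : ℕ → Subgroup K
  | 0 => N
  | j + 1 => ⁅lcs N j, N⁆

/-- LCS: basic properties of the lower central series -/
def S_LCS : Prop := ∀ (K : Type) [Group K] (N : Subgroup K), N.Normal →
  (∀ j, (lcs N j).Normal) ∧ (∀ j, lcs N j ≤ N) ∧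
  ∀ j, ∀ z ∈ lcs N j, ∀ n ∈ N, z * n * z⁻¹ * n⁻¹ ∈ lcs N (j + 1)

/-- CEN: a `K`-irreducible nontrivial factor `S / U` of a nilpotent normal subgroup splits off below
a trivial factor `M / S` -/
def S_CEN : Prop := ∀ (K E : Type) [Group K] [AddCommGroup E] [Module ℝ E] [FiniteDimensional ℝ E]
  (ρ : K →* Module.End ℝ E) (N : Subgroup K) (U S M : Submodule ℝ E) (c : ℕ), N.Normal →
  Inv ρ U → Inv ρ S → Inv ρ M → U < S → S < M →
  (∀ W' : Submodule ℝ E, Inv ρ W' → U ≤ W' → W' ≤ S → W' = U ∨ W' = S) →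
  ¬ Triv ρ N U S → Triv ρ N S M → Triv ρ (lcs N c) U M →
  ∃ T : Submodule ℝ E, Inv ρ T ∧ T ⊓ S = U ∧ T ⊔ S = M

/-- LIN: if every proper quotient has a trivial factor then all the irreducible factors are
trivial -/
def S_LIN : Prop := ∀ (K E : Type) [Group K] [AddCommGroup E] [Module ℝ E] [FiniteDimensional ℝ E]
  (ρ : K →* Module.End ℝ E) (N : Subgroup K) (V : Submodule ℝ E) (c : ℕ), N.Normal →
  Inv ρ V → Triv ρ (lcs N c) ⊥ V →
  (∀ W : Submodule ℝ E, Inv ρ W → W < V → ∃ W' W'' : Submodule ℝ E, Inv ρ W' ∧ Inv ρ W'' ∧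
    W ≤ W' ∧ W' < W'' ∧ W'' ≤ V ∧ Triv ρ N W' W'') →
  ∀ W' W'' : Submodule ℝ E, Inv ρ W' → Inv ρ W'' → W' < W'' → W'' ≤ V →
    (∀ Y : Submodule ℝ E, Inv ρ Y → W' ≤ Y → Y ≤ W'' → Y = W' ∨ Y = W'') → Triv ρ N W' W''

end Pool.Agent.NH11.CH
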